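import Mathlib

/-!
# Two-player cryptogenography: the family of bilinear forms

Points of the cone are `p : Fin 3 → ℝ` with `p 0`, `p 1` the weights for the two secrets and
`p 2` the weight without the secret.  `form e h t` is a symmetric bilinear form depending on
parameters `0 ≤ h ≤ e < π / 4`, `0 < t`.
-/

namespace Pool.Agent.Helper92.S2

open Real

/-- swap the two secrets -/
def bar (p : Fin 3 → ℝ) : Fin 3 → ℝ := ![p 1, p 0, p 2]

/-- the determinant `G` -/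
noncomputable def G (e h : ℝ) : ℝ := cos h + (1 - (e - h)) * sin h

/-- the determinant `D` -/
noncomputable def D (e h : ℝ) : ℝ := cos h - (1 + (e - h)) * sin h

/-- auxiliary linear form -/
noncomputable def X (h : ℝ) (p : Fin 3 → ℝ) : ℝ :=
  (p 0 + p 1) - (cos h + sin h) * exp h * (p 0 - p 1)

/-- first coordinate form -/
noncomputable def A1 (e h t : ℝ) (p : Fin 3 → ℝ) : ℝ :=
  4 * (cos h - (e - h) * sin h) * t * p 2 - (p 0 + p 1) +
    (cos h + sin h) * exp h * (p 0 - p 1)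

/-- second coordinate form -/
noncomputable def A2 (e h t : ℝ) (p : Fin 3 → ℝ) : ℝ :=
  4 * cos h * t * p 2 - (1 - (e - h)) * (p 0 + p 1) -
    ((1 + (e - h)) * cos h + (1 - (e - h)) * sin h) * exp h * (p 0 - p 1)

/-- third coordinate form -/
noncomputable def A3 (e h t : ℝ) (p : Fin 3 → ℝ) : ℝ :=
  -(4 * t * p 2) + ((2 - (e - h)) * cos h - (e - h) * sin h) * (p 0 + p 1) +
    (e - h) * exp h * (p 0 - p 1)

/-- the bilinear forms -/
noncomputable def form (e h t : ℝ) (p r : Fin 3 → ℝ) : ℝ :=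
  p 1 * r 2 + p 2 * r 1 + exp (-e) / G e h * (t * D e h * p 2 * r 2 -
    (X h p * r 2 + p 2 * X h r) / 2 +
    1 / (8 * t) * (((1 - (e - h)) * cos h - sin h) * (p 0 + p 1) * (r 0 + r 1) +
      (e - h) * exp h * ((p 0 + p 1) * (r 0 - r 1) + (p 0 - p 1) * (r 0 + r 1)) -
      ((1 + (e - h)) * cos h + sin h) * exp h ^ 2 * (p 0 - p 1) * (r 0 - r 1)))

/-- the form with parameters `(e, h, t)` is valid for `p` -/
def Val (E e h t : ℝ) (p : Fin 3 → ℝ) : Prop :=
  0 ≤ h ∧ h ≤ e ∧ e ≤ E ∧ 0 < t ∧ ((h = 0 ∧ e = 0) ∨ (h = 0 ∧ 0 ≤ A1 e h t p) ∨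
    (0 ≤ A1 e h t p ∧ 0 ≤ A2 e h t p ∧ 0 ≤ A3 e h t p))

end Pool.Agent.Helper92.S2
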