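import Mathlib
import Pool.Agent.Helper92.S2.Defs

/-!
# Elementary inequalities on `[0, π / 4]`
-/

namespace Pool.Agent.Helper92.S2

open Real

theorem sin_le_cos (h : ℝ) (h0 : 0 ≤ h) (h1 : h ≤ π / 4) : sin h ≤ cos h := by
  have hpi := Real.pi_pos
  have a1 : sin h ≤ sin (π / 4) :=
    Real.sin_le_sin_of_le_of_le_pi_div_two (by linarith) (by linarith) h1
  have a2 : cos (π / 4) ≤ cos h := Real.cos_le_cos_of_nonneg_of_le_pi h0 (by linarith) h1
  rw [Real.sin_pi_div_four] at a1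
  rw [Real.cos_pi_div_four] at a2
  exact a1.trans a2

private theorem sin_lt_cos (h : ℝ) (h0 : 0 ≤ h) (h1 : h < π / 4) : sin h < cos h := by
  have hpi := Real.pi_pos
  have a1 : sin h < sin (π / 4) :=
    Real.sin_lt_sin_of_lt_of_le_pi_div_two (by linarith) (by linarith) h1
  have a2 : cos (π / 4) ≤ cos h := Real.cos_le_cos_of_nonneg_of_le_pi h0 (by linarith) h1.le
  rw [Real.sin_pi_div_four] at a1
  rw [Real.cos_pi_div_four] at a2
  exact a1.trans_le a2

theorem one_le_pi4 : π / 4 < 0.7854 := by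
  have := Real.pi_lt_d4
  norm_num at this ⊢
  linarith

/-- B1 -/
theorem exp_mul_cos_add_sin (h : ℝ) (h0 : 0 ≤ h) (h1 : h ≤ π / 4) :
    exp (-h) * (cos h + sin h) ≤ 1 := by
  have a1 : cos h ≤ 1 := Real.cos_le_one h
  have a2 : sin h ≤ h := Real.sin_le h0
  have a3 : h + 1 ≤ exp h := Real.add_one_le_exp h
  calc exp (-h) * (cos h + sin h) ≤ exp (-h) * exp h :=
        mul_le_mul_of_nonneg_left (by linarith) (Real.exp_pos _).le
    _ = 1 := by rw [← Real.exp_add]; simp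

/-- B2 -/
theorem exp_neg_mul_two_add (x : ℝ) (hx : 0 ≤ x) : exp (-x) * (2 + x) ≤ 2 := by
  have a3 : x + 1 ≤ exp x := Real.add_one_le_exp x
  calc exp (-x) * (2 + x) ≤ exp (-x) * (2 * exp x) :=
        mul_le_mul_of_nonneg_left (by linarith) (Real.exp_pos _).le
    _ = 2 * (exp (-x) * exp x) := by ring
    _ = 2 := by rw [← Real.exp_add]; simp

/-- B3 -/
theorem exp_neg_mul_one_add (x : ℝ) (hx : 0 ≤ x) : exp (-x) * (1 + x) ≤ 1 := by
  have a3 : x + 1 ≤ exp x := Real.add_one_le_exp x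
  calc exp (-x) * (1 + x) ≤ exp (-x) * exp x :=
        mul_le_mul_of_nonneg_left (by linarith) (Real.exp_pos _).le
    _ = 1 := by rw [← Real.exp_add]; simp

private theorem exp_neg_le (h : ℝ) (h0 : 0 ≤ h) : exp (-h) ≤ 1 - h + h ^ 2 / 2 := by
  have a1 : 1 + h + h ^ 2 / 2 ≤ exp h := Real.quadratic_le_exp_of_nonneg h0
  have a2 : (0 : ℝ) < 1 - h + h ^ 2 / 2 := by nlinarith [sq_nonneg (h - 1)]
  have a3 : 1 ≤ (1 - h + h ^ 2 / 2) * exp h := by
    calc (1 : ℝ) ≤ (1 - h + h ^ 2 / 2) * (1 + h + h ^ 2 / 2) := by nlinarith [sq_nonneg (h ^ 2)]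
      _ ≤ (1 - h + h ^ 2 / 2) * exp h := mul_le_mul_of_nonneg_left a1 a2.le
  rw [Real.exp_neg, inv_le_iff_one_le_mul₀ (Real.exp_pos h)]
  exact a3

/-- B6 -/
theorem cos_sub_exp (h : ℝ) (h0 : 0 ≤ h) (h1 : h ≤ π / 4) :
    h * (1 - h) ≤ cos h - exp (-h) := by
  have a1 := exp_neg_le h h0
  have a2 := Real.one_sub_sq_div_two_le_cos (x := h)
  nlinarith

/-- B4 -/
theorem exp_le_cos (h : ℝ) (h0 : 0 ≤ h) (h1 : h ≤ π / 4) : exp (-h) ≤ cos h := by
  have a1 := cos_sub_exp h h0 h1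
  have a2 : h < 0.7854 := h1.trans_lt one_le_pi4
  have a3 : 0 ≤ h * (1 - h) := mul_nonneg h0 (by norm_num at a2; linarith)
  linarith

private theorem cos_pos' (h : ℝ) (h0 : 0 ≤ h) (h1 : h ≤ π / 4) : 0 < cos h := by
  have hpi := Real.pi_pos
  exact Real.cos_pos_of_mem_Ioo ⟨by linarith, by linarith⟩

private theorem sin_nonneg' (h : ℝ) (h0 : 0 ≤ h) (h1 : h ≤ π / 4) : 0 ≤ sin h := by
  have hpi := Real.pi_pos
  exact Real.sin_nonneg_of_nonneg_of_le_pi h0 (by linarith)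

private theorem mul_cos_le_sin (h : ℝ) (h0 : 0 ≤ h) (h1 : h ≤ π / 4) : h * cos h ≤ sin h := by
  have hpi := Real.pi_pos
  have hc := cos_pos' h h0 h1
  have a1 : h ≤ tan h := Real.le_tan h0 (by linarith)
  rw [Real.tan_eq_sin_div_cos, le_div_iff₀ hc] at a1
  exact a1

/-- B7 -/
theorem one_sub_exp_mul_cos (h : ℝ) (h0 : 0 ≤ h) (h1 : h ≤ π / 4) :
    (1 - exp (-h)) * cos h ≤ sin h := by
  have hc := cos_pos' h h0 h1
  have a1 : 1 - h ≤ exp (-h) := Real.one_sub_le_exp_neg h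
  calc (1 - exp (-h)) * cos h ≤ h * cos h := mul_le_mul_of_nonneg_right (by linarith) hc.le
    _ ≤ sin h := mul_cos_le_sin h h0 h1

/-- The comparison used for `D`. -/
private theorem D_aux (x : ℝ) (h0 : 0 ≤ x) (h1 : x ≤ π / 4) :
    (1 + x) * (cos x - sin x) ≤ cos x + sin x := by
  have a1 := mul_cos_le_sin x h0 h1
  have a2 := sin_nonneg' x h0 h1
  nlinarith [mul_nonneg h0 a2]

/-- B8 -/
theorem D_pos (e h : ℝ) (h0 : 0 ≤ h) (h1 : h ≤ e) (h2 : e < π / 4) : 0 < D e h := by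
  have hs := sin_nonneg' h h0 (h1.trans h2.le)
  have hx0 : 0 ≤ e - h := by linarith
  have hx1 : e - h < π / 4 := by linarith
  have a1 := sin_lt_cos (e - h) hx0 hx1
  have a2 := D_aux (e - h) hx0 hx1.le
  have a3 := sin_lt_cos e (h0.trans h1) h2
  have he : e = h + (e - h) := by ring
  generalize e - h = x at *
  rw [he, Real.sin_add, Real.cos_add] at a3
  have a4 : 0 < cos x - sin x := by linarith
  have a5 : sin h * ((1 + x) * (cos x - sin x)) ≤ sin h * (cos x + sin x) :=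
    mul_le_mul_of_nonneg_left a2 hs
  have a6 : (1 + x) * sin h * (cos x - sin x) < cos h * (cos x - sin x) := by nlinarith
  have a7 := lt_of_mul_lt_mul_right a6 a4.le
  have hD : D e h = cos h - (1 + x) * sin h := by
    unfold D
    rw [he]
    ring
  rw [hD]
  linarith

theorem D_nonneg (e h : ℝ) (h0 : 0 ≤ h) (h1 : h ≤ e) (h2 : e ≤ π / 4) : 0 ≤ D e h := by
  rcases h0.eq_or_lt with hh | hh
  · rw [← hh]
    unfold D
    simp
  · have hs := sin_nonneg' h h0 (h1.trans h2)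
    have hx0 : 0 ≤ e - h := by linarith
    have hx1 : e - h < π / 4 := by linarith
    have a1 := sin_lt_cos (e - h) hx0 hx1
    have a2 := D_aux (e - h) hx0 hx1.le
    have a3 := sin_le_cos e (h0.trans h1) h2
    have he : e = h + (e - h) := by ring
    generalize e - h = x at *
    rw [he, Real.sin_add, Real.cos_add] at a3
    have a4 : 0 < cos x - sin x := by linarith
    have a5 : sin h * ((1 + x) * (cos x - sin x)) ≤ sin h * (cos x + sin x) :=
      mul_le_mul_of_nonneg_left a2 hs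
    have a6 : (1 + x) * sin h * (cos x - sin x) ≤ cos h * (cos x - sin x) := by nlinarith
    have a7 := le_of_mul_le_mul_right a6 a4
    have hD : D e h = cos h - (1 + x) * sin h := by
      unfold D
      rw [he]
      ring
    rw [hD]
    linarith

theorem G_pos (e h : ℝ) (h0 : 0 ≤ h) (h1 : h ≤ e) (h2 : e ≤ π / 4) : 0 < G e h := by
  have hc := cos_pos' h h0 (h1.trans h2)
  have hs := sin_nonneg' h h0 (h1.trans h2)
  have hp := one_le_pi4
  have hx : 0 ≤ 1 - (e - h) := by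
    norm_num at hp
    linarith
  unfold G
  nlinarith [mul_nonneg hx hs]

theorem D_le_G (e h : ℝ) (h0 : 0 ≤ h) (h1 : h ≤ e) (h2 : e ≤ π / 4) : D e h ≤ G e h := by
  have hs := sin_nonneg' h h0 (h1.trans h2)
  unfold D G
  nlinarith

end Pool.Agent.Helper92.S2
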