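import Mathlib
import Pool.Agent.Helper92.S2.Defs

/-!
# Derivatives along the characteristic directions
-/

namespace Pool.Agent.Helper92.S2

open Real

private theorem key (c s x K t v w1 w2 w3 p0 p1 p2 r0 r1 r2 : ℝ) (hE : c ^ 2 + s ^ 2 = 1)
    (hv : 8 * t * v = 1) :
    (w1 + w3) * (c + (1 - x) * s) * (t * (c - (1 + x) * s) * p2 * r2 -
        (((p0 + p1) - (c + s) * K * (p0 - p1)) * r2 +
          p2 * ((r0 + r1) - (c + s) * K * (r0 - r1))) / 2 +
        v * (((1 - x) * c - s) * (p0 + p1) * (r0 + r1) +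
          x * K * ((p0 + p1) * (r0 - r1) + (p0 - p1) * (r0 + r1)) -
          ((1 + x) * c + s) * K ^ 2 * (p0 - p1) * (r0 - r1))) -
      (w1 * s - w2 * ((1 - x) * c) - w3 * ((1 - x) * c - s)) * (t * (c - (1 + x) * s) * p2 * r2 -
        (((p0 + p1) - (c + s) * K * (p0 - p1)) * r2 +
          p2 * ((r0 + r1) - (c + s) * K * (r0 - r1))) / 2 +
        v * (((1 - x) * c - s) * (p0 + p1) * (r0 + r1) +
          x * K * ((p0 + p1) * (r0 - r1) + (p0 - p1) * (r0 + r1)) -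
          ((1 + x) * c + s) * K ^ 2 * (p0 - p1) * (r0 - r1))) +
      (c + (1 - x) * s) * (
        -w1 * (-(t * (c - (1 + x) * s)) * p2 * r2 - s * t * p2 * r2 +
          v * ((((1 - x) * c - s) * (p0 + p1) * (r0 + r1) +
            x * K * ((p0 + p1) * (r0 - r1) + (p0 - p1) * (r0 + r1)) -
            ((1 + x) * c + s) * K ^ 2 * (p0 - p1) * (r0 - r1)) -
            c * (p0 + p1) * (r0 + r1) + K * ((p0 + p1) * (r0 - r1) + (p0 - p1) * (r0 + r1)) -
            c * K ^ 2 * (p0 - p1) * (r0 - r1))) -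
        w2 * (-((1 + x) * c * t * p2 * r2) + c * K * ((p0 - p1) * r2 + p2 * (r0 - r1)) +
          v * (-((1 - x) * s * (p0 + p1) * (r0 + r1)) -
            (1 - x) * K * ((p0 + p1) * (r0 - r1) + (p0 - p1) * (r0 + r1)) -
            ((1 - x) * s + 2 * (1 + x) * c) * K ^ 2 * (p0 - p1) * (r0 - r1))) -
        w3 * (t * (c - (1 + x) * s) * p2 * r2 - t * (s + (1 + x) * c) * p2 * r2 +
          c * K * ((p0 - p1) * r2 + p2 * (r0 - r1)) +
          v * (-(((1 - x) * c - s) * (p0 + p1) * (r0 + r1) +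
            x * K * ((p0 + p1) * (r0 - r1) + (p0 - p1) * (r0 + r1)) -
            ((1 + x) * c + s) * K ^ 2 * (p0 - p1) * (r0 - r1)) -
            (c + (1 - x) * s) * (p0 + p1) * (r0 + r1) +
            x * K * ((p0 + p1) * (r0 - r1) + (p0 - p1) * (r0 + r1)) -
            ((1 - x) * s + (3 + 2 * x) * c) * K ^ 2 * (p0 - p1) * (r0 - r1)))) =
    v * (w1 * (4 * (c - x * s) * t * p2 - (p0 + p1) + (c + s) * K * (p0 - p1)) *
        (4 * (c - x * s) * t * r2 - (r0 + r1) + (c + s) * K * (r0 - r1)) +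
      w2 * (4 * c * t * p2 - (1 - x) * (p0 + p1) -
          ((1 + x) * c + (1 - x) * s) * K * (p0 - p1)) *
        (4 * c * t * r2 - (1 - x) * (r0 + r1) -
          ((1 + x) * c + (1 - x) * s) * K * (r0 - r1)) +
      w3 * (-(4 * t * p2) + ((2 - x) * c - x * s) * (p0 + p1) + x * K * (p0 - p1)) *
        (-(4 * t * r2) + ((2 - x) * c - x * s) * (r0 + r1) + x * K * (r0 - r1))) := by
  linear_combination (-(w1 * (-(v * (p0 + p1) * (r0 + r1))) +
      w2 * (-((1 - x) ^ 2 * v * (p0 + p1) * (r0 + r1))) +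
      w3 * (-(2 * t * p2 * r2) + x * K * (p2 * (r0 - r1) + (p0 - p1) * r2) / 2 -
        x ^ 2 * K ^ 2 * v * (p0 - p1) * (r0 - r1)))) * hE +
    (-(w1 * (2 * (c - x * s) ^ 2 * t * p2 * r2 -
        (c - x * s) * (p2 * ((r0 + r1) - (c + s) * K * (r0 - r1)) +
          ((p0 + p1) - (c + s) * K * (p0 - p1)) * r2) / 2) +
      w2 * (2 * c ^ 2 * t * p2 * r2 -
        c * (p2 * ((1 - x) * (r0 + r1) + ((1 + x) * c + (1 - x) * s) * K * (r0 - r1)) +
          ((1 - x) * (p0 + p1) + ((1 + x) * c + (1 - x) * s) * K * (p0 - p1)) * r2) / 2) +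
      w3 * (2 * t * p2 * r2 -
        (p2 * (((2 - x) * c - x * s) * (r0 + r1) + x * K * (r0 - r1)) +
          (((2 - x) * c - x * s) * (p0 + p1) + x * K * (p0 - p1)) * r2) / 2))) * hv

/-- the derivative of the form along a curve with characteristic speeds `-w1, -w2, -w3` -/
theorem hasDerivAt_form' {e h t : ℝ → ℝ} {u w1 w2 w3 : ℝ} (p r : Fin 3 → ℝ)
    (he : HasDerivAt e (-(w1 + w3)) u) (hh : HasDerivAt h (-(w2 + w3)) u)
    (ht : HasDerivAt t ((w1 - w3) * t u) u) (ht0 : t u ≠ 0) (hG : G (e u) (h u) ≠ 0) :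
    HasDerivAt (fun u => form (e u) (h u) (t u) p r)
      (exp (-(e u)) / (8 * G (e u) (h u) ^ 2 * t u) *
        (w1 * A1 (e u) (h u) (t u) p * A1 (e u) (h u) (t u) r +
          w2 * A2 (e u) (h u) (t u) p * A2 (e u) (h u) (t u) r +
          w3 * A3 (e u) (h u) (t u) p * A3 (e u) (h u) (t u) r)) u := by
  have hcos : HasDerivAt (fun u => cos (h u)) (-sin (h u) * (-(w2 + w3))) u := hh.cos
  have hsin : HasDerivAt (fun u => sin (h u)) (cos (h u) * (-(w2 + w3))) u := hh.sin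
  have hK : HasDerivAt (fun u => exp (h u)) (exp (h u) * (-(w2 + w3))) u := hh.exp
  have hq : HasDerivAt (fun u => exp (-(e u))) (exp (-(e u)) * (w1 + w3)) u := by
    have := he.neg.exp
    simpa using this
  have hx : HasDerivAt (fun u => e u - h u) (-(w1 + w3) - (-(w2 + w3))) u := he.sub hh
  have hGd : HasDerivAt (fun u => G (e u) (h u))
      (-sin (h u) * (-(w2 + w3)) + ((0 - (-(w1 + w3) - (-(w2 + w3)))) * sin (h u) +
        (1 - (e u - h u)) * (cos (h u) * (-(w2 + w3))))) u := by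
    unfold G
    exact hcos.add (((hasDerivAt_const u (1 : ℝ)).sub hx).mul hsin)
  have hDd : HasDerivAt (fun u => D (e u) (h u))
      (-sin (h u) * (-(w2 + w3)) - ((0 + (-(w1 + w3) - (-(w2 + w3)))) * sin (h u) +
        (1 + (e u - h u)) * (cos (h u) * (-(w2 + w3))))) u := by
    unfold D
    exact hcos.sub (((hasDerivAt_const u (1 : ℝ)).add hx).mul hsin)
  have hXd : ∀ p : Fin 3 → ℝ, HasDerivAt (fun u => X (h u) p)
      (0 - (((-sin (h u) * (-(w2 + w3)) + cos (h u) * (-(w2 + w3))) * exp (h u) +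
        (cos (h u) + sin (h u)) * (exp (h u) * (-(w2 + w3)))) * (p 0 - p 1))) u := by
    intro p
    unfold X
    exact (hasDerivAt_const u (p 0 + p 1)).sub (((hcos.add hsin).mul hK).mul_const (p 0 - p 1))
  have hvd : HasDerivAt (fun u => 1 / (8 * t u)) (-(w1 - w3) * (1 / (8 * t u))) u := by
    refine ((hasDerivAt_const u (1 : ℝ)).div (ht.const_mul 8)
      (mul_ne_zero (by norm_num) ht0)).congr_deriv ?_
    field_simp
    ring
  have hC := (((((((hasDerivAt_const u (1 : ℝ)).sub hx).mul hcos).sub hsin).mul_const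
    (p 0 + p 1)).mul_const (r 0 + r 1)).add ((hx.mul hK).mul_const
      ((p 0 + p 1) * (r 0 - r 1) + (p 0 - p 1) * (r 0 + r 1)))).sub
      (((((((hasDerivAt_const u (1 : ℝ)).add hx).mul hcos).add hsin).mul (hK.pow 2)).mul_const
        (p 0 - p 1)).mul_const (r 0 - r 1))
  have hB := ((((ht.mul hDd).mul_const (p 2)).mul_const (r 2)).sub
    ((((hXd p).mul_const (r 2)).add ((hXd r).const_mul (p 2))).div_const 2)).add (hvd.mul hC)
  have hE : cos (h u) ^ 2 + sin (h u) ^ 2 = 1 := by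
    rw [add_comm]; exact sin_sq_add_cos_sq _
  have hv : 8 * t u * (1 / (8 * t u)) = 1 := by field_simp
  have hk := key (cos (h u)) (sin (h u)) (e u - h u) (exp (h u)) (t u) (1 / (8 * t u)) w1 w2 w3
    (p 0) (p 1) (p 2) (r 0) (r 1) (r 2) hE hv
  obtain ⟨B0, hB0⟩ : ∃ B0 : ℝ, B0 = t u * (cos (h u) - (1 + (e u - h u)) * sin (h u)) * p 2 * r 2 -
        (((p 0 + p 1) - (cos (h u) + sin (h u)) * exp (h u) * (p 0 - p 1)) * r 2 +
          p 2 * ((r 0 + r 1) - (cos (h u) + sin (h u)) * exp (h u) * (r 0 - r 1))) / 2 +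
        1 / (8 * t u) * (((1 - (e u - h u)) * cos (h u) - sin (h u)) * (p 0 + p 1) * (r 0 + r 1) +
          (e u - h u) * exp (h u) * ((p 0 + p 1) * (r 0 - r 1) + (p 0 - p 1) * (r 0 + r 1)) -
          ((1 + (e u - h u)) * cos (h u) + sin (h u)) * exp (h u) ^ 2 * (p 0 - p 1) *
            (r 0 - r 1)) := ⟨_, rfl⟩
  rw [← hB0] at hk
  obtain ⟨Bd, hBd⟩ : ∃ Bd : ℝ, Bd =
        -w1 * (-(t u * (cos (h u) - (1 + (e u - h u)) * sin (h u))) * p 2 * r 2 -
          sin (h u) * t u * p 2 * r 2 +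
          1 / (8 * t u) * ((((1 - (e u - h u)) * cos (h u) - sin (h u)) * (p 0 + p 1) *
              (r 0 + r 1) +
            (e u - h u) * exp (h u) * ((p 0 + p 1) * (r 0 - r 1) + (p 0 - p 1) * (r 0 + r 1)) -
            ((1 + (e u - h u)) * cos (h u) + sin (h u)) * exp (h u) ^ 2 * (p 0 - p 1) *
              (r 0 - r 1)) -
            cos (h u) * (p 0 + p 1) * (r 0 + r 1) +
            exp (h u) * ((p 0 + p 1) * (r 0 - r 1) + (p 0 - p 1) * (r 0 + r 1)) -
            cos (h u) * exp (h u) ^ 2 * (p 0 - p 1) * (r 0 - r 1))) -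
        w2 * (-((1 + (e u - h u)) * cos (h u) * t u * p 2 * r 2) +
          cos (h u) * exp (h u) * ((p 0 - p 1) * r 2 + p 2 * (r 0 - r 1)) +
          1 / (8 * t u) * (-((1 - (e u - h u)) * sin (h u) * (p 0 + p 1) * (r 0 + r 1)) -
            (1 - (e u - h u)) * exp (h u) * ((p 0 + p 1) * (r 0 - r 1) +
              (p 0 - p 1) * (r 0 + r 1)) -
            ((1 - (e u - h u)) * sin (h u) + 2 * (1 + (e u - h u)) * cos (h u)) *
              exp (h u) ^ 2 * (p 0 - p 1) * (r 0 - r 1))) -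
        w3 * (t u * (cos (h u) - (1 + (e u - h u)) * sin (h u)) * p 2 * r 2 -
          t u * (sin (h u) + (1 + (e u - h u)) * cos (h u)) * p 2 * r 2 +
          cos (h u) * exp (h u) * ((p 0 - p 1) * r 2 + p 2 * (r 0 - r 1)) +
          1 / (8 * t u) * (-(((1 - (e u - h u)) * cos (h u) - sin (h u)) * (p 0 + p 1) *
              (r 0 + r 1) +
            (e u - h u) * exp (h u) * ((p 0 + p 1) * (r 0 - r 1) + (p 0 - p 1) * (r 0 + r 1)) -
            ((1 + (e u - h u)) * cos (h u) + sin (h u)) * exp (h u) ^ 2 * (p 0 - p 1) *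
              (r 0 - r 1)) -
            (cos (h u) + (1 - (e u - h u)) * sin (h u)) * (p 0 + p 1) * (r 0 + r 1) +
            (e u - h u) * exp (h u) * ((p 0 + p 1) * (r 0 - r 1) + (p 0 - p 1) * (r 0 + r 1)) -
            ((1 - (e u - h u)) * sin (h u) + (3 + 2 * (e u - h u)) * cos (h u)) *
              exp (h u) ^ 2 * (p 0 - p 1) * (r 0 - r 1))) := ⟨_, rfl⟩
  rw [← hBd] at hk
  have hB2 := hB.congr_deriv (g' := Bd) (by
    rw [hBd]
    simp only [D, Pi.sub_apply, Pi.add_apply, Pi.mul_apply, Pi.pow_apply]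
    generalize 1 / (8 * t u) = v
    generalize cos (h u) = c
    generalize sin (h u) = s
    generalize exp (h u) = K
    ring)
  have hGd2 := hGd.congr_deriv (g' := w1 * sin (h u) - w2 * ((1 - (e u - h u)) * cos (h u)) -
      w3 * ((1 - (e u - h u)) * cos (h u) - sin (h u))) (by ring)
  have hF := ((hq.div hGd2 hG).mul hB2).const_add (p 1 * r 2 + p 2 * r 1)
  refine (hF.congr_deriv ?_)
  have htar : exp (-(e u)) / (8 * G (e u) (h u) ^ 2 * t u) *
        (w1 * A1 (e u) (h u) (t u) p * A1 (e u) (h u) (t u) r +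
          w2 * A2 (e u) (h u) (t u) p * A2 (e u) (h u) (t u) r +
          w3 * A3 (e u) (h u) (t u) p * A3 (e u) (h u) (t u) r) =
      exp (-(e u)) / G (e u) (h u) ^ 2 * (1 / (8 * t u) *
        (w1 * A1 (e u) (h u) (t u) p * A1 (e u) (h u) (t u) r +
          w2 * A2 (e u) (h u) (t u) p * A2 (e u) (h u) (t u) r +
          w3 * A3 (e u) (h u) (t u) p * A3 (e u) (h u) (t u) r)) := by
    field_simp
  rw [htar]
  unfold A1 A2 A3
  rw [← hk]
  have hB3 : t u * D (e u) (h u) * p 2 * r 2 - (X (h u) p * r 2 + p 2 * X (h u) r) / 2 +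
      1 / (8 * t u) * (((1 - (e u - h u)) * cos (h u) - sin (h u)) * (p 0 + p 1) * (r 0 + r 1) +
        (e u - h u) * exp (h u) * ((p 0 + p 1) * (r 0 - r 1) + (p 0 - p 1) * (r 0 + r 1)) -
        ((1 + (e u - h u)) * cos (h u) + sin (h u)) * exp (h u) ^ 2 * (p 0 - p 1) *
          (r 0 - r 1)) = B0 := by
    rw [hB0]; rfl
  have hg : cos (h u) + (1 - (e u - h u)) * sin (h u) = G (e u) (h u) := rfl
  have hfin : ∀ b : ℝ, b = B0 → (exp (-(e u)) * (w1 + w3) * G (e u) (h u) - exp (-(e u)) *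
      (w1 * sin (h u) - w2 * ((1 - (e u - h u)) * cos (h u)) -
        w3 * ((1 - (e u - h u)) * cos (h u) - sin (h u)))) / G (e u) (h u) ^ 2 * b +
      exp (-(e u)) / G (e u) (h u) * Bd =
      exp (-(e u)) / G (e u) (h u) ^ 2 * ((w1 + w3) * G (e u) (h u) * B0 -
        (w1 * sin (h u) - w2 * ((1 - (e u - h u)) * cos (h u)) -
          w3 * ((1 - (e u - h u)) * cos (h u) - sin (h u))) * B0 + G (e u) (h u) * Bd) := by
    rintro b rfl
    generalize G (e u) (h u) = g at hG ⊢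
    field_simp
  rw [hg]
  exact hfin _ hB3

/-! ### The coordinate forms -/

private theorem kA1 (c s x K t w1 w2 w3 p0 p1 p2 : ℝ) (hE : c ^ 2 + s ^ 2 = 1)
    (hD : c - (1 + x) * s ≠ 0) (hG : c + (1 - x) * s ≠ 0) :
    w1 * (4 * (c + (1 - x) * s) * t * p2) +
      w2 * (4 * x * c * t * p2 - 2 * c * K * (p0 - p1)) -
      w3 * (4 * t * p2 * ((1 - x) * c - (1 + x) * s) + 2 * c * K * (p0 - p1)) =
    w1 * ((c - x * s) * (4 * (c - x * s) * t * p2 - (p0 + p1) + (c + s) * K * (p0 - p1)) +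
      c * (4 * c * t * p2 - (1 - x) * (p0 + p1) -
        ((1 + x) * c + (1 - x) * s) * K * (p0 - p1)) +
      (-(4 * t * p2) + ((2 - x) * c - x * s) * (p0 + p1) + x * K * (p0 - p1))) /
        (c - (1 + x) * s) +
    w2 * (c * ((4 * c * t * p2 - (1 - x) * (p0 + p1) -
        ((1 + x) * c + (1 - x) * s) * K * (p0 - p1)) -
      (1 - x) * (4 * (c - x * s) * t * p2 - (p0 + p1) + (c + s) * K * (p0 - p1)))) /
        (c + (1 - x) * s) -
    w3 * ((-(4 * t * p2) + ((2 - x) * c - x * s) * (p0 + p1) + x * K * (p0 - p1)) +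
      ((2 - x) * c - x * s) *
        (4 * (c - x * s) * t * p2 - (p0 + p1) + (c + s) * K * (p0 - p1))) /
        (c + (1 - x) * s) := by
  have h1 : w1 * (4 * (c + (1 - x) * s) * t * p2) =
      w1 * ((c - x * s) * (4 * (c - x * s) * t * p2 - (p0 + p1) + (c + s) * K * (p0 - p1)) +
      c * (4 * c * t * p2 - (1 - x) * (p0 + p1) -
        ((1 + x) * c + (1 - x) * s) * K * (p0 - p1)) +
      (-(4 * t * p2) + ((2 - x) * c - x * s) * (p0 + p1) + x * K * (p0 - p1))) /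
        (c - (1 + x) * s) := by
    rw [eq_div_iff hD]
    linear_combination (w1 * (-(4 * t * p2) + x * K * (p0 - p1))) * hE
  have h2 : w2 * (4 * x * c * t * p2 - 2 * c * K * (p0 - p1)) =
    w2 * (c * ((4 * c * t * p2 - (1 - x) * (p0 + p1) -
        ((1 + x) * c + (1 - x) * s) * K * (p0 - p1)) -
      (1 - x) * (4 * (c - x * s) * t * p2 - (p0 + p1) + (c + s) * K * (p0 - p1)))) /
        (c + (1 - x) * s) := by
    rw [eq_div_iff hG]
    ring
  have h3 : w3 * (4 * t * p2 * ((1 - x) * c - (1 + x) * s) + 2 * c * K * (p0 - p1)) =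
    w3 * ((-(4 * t * p2) + ((2 - x) * c - x * s) * (p0 + p1) + x * K * (p0 - p1)) +
      ((2 - x) * c - x * s) *
        (4 * (c - x * s) * t * p2 - (p0 + p1) + (c + s) * K * (p0 - p1))) /
        (c + (1 - x) * s) := by
    rw [eq_div_iff hG]
    linear_combination (w3 * (-(4 * t * p2) + x * K * (p0 - p1))) * hE
  rw [h1, h2, h3]

private theorem kA2 (c s x K t w1 w2 w3 p0 p1 p2 : ℝ) (hE : c ^ 2 + s ^ 2 = 1)
    (hD : c - (1 + x) * s ≠ 0) (hG : c + (1 - x) * s ≠ 0) :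
    w1 * (4 * c * t * p2 - (p0 + p1) + (c - s) * K * (p0 - p1)) +
      w2 * (4 * s * t * p2 + (p0 + p1) + (c + (1 - 2 * x) * s) * K * (p0 - p1)) -
      w3 * (4 * (c - s) * t * p2 - 2 * K * (c - x * s) * (p0 - p1)) =
    w2 * (c * (4 * (c - x * s) * t * p2 - (p0 + p1) + (c + s) * K * (p0 - p1)) + (1 + x) * (-(4 * t * p2) + ((2 - x) * c - x * s) * (p0 + p1) + x * K * (p0 - p1)) + ((1 + x) * s + x * c) * (4 * c * t * p2 - (1 - x) * (p0 + p1) -
        ((1 + x) * c + (1 - x) * s) * K * (p0 - p1))) / (c - (1 + x) * s) +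
    w1 * (c * (4 * (c - x * s) * t * p2 - (p0 + p1) + (c + s) * K * (p0 - p1)) + s * (4 * c * t * p2 - (1 - x) * (p0 + p1) -
        ((1 + x) * c + (1 - x) * s) * K * (p0 - p1))) / (c + (1 - x) * s) -
    w3 * ((1 - x) * (-(4 * t * p2) + ((2 - x) * c - x * s) * (p0 + p1) + x * K * (p0 - p1)) + ((2 - x) * c - x * s) * (4 * c * t * p2 - (1 - x) * (p0 + p1) -
        ((1 + x) * c + (1 - x) * s) * K * (p0 - p1))) / (c + (1 - x) * s) := by
  have h1 : w2 * (4 * s * t * p2 + (p0 + p1) + (c + (1 - 2 * x) * s) * K * (p0 - p1)) =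
    w2 * (c * (4 * (c - x * s) * t * p2 - (p0 + p1) + (c + s) * K * (p0 - p1)) + (1 + x) * (-(4 * t * p2) + ((2 - x) * c - x * s) * (p0 + p1) + x * K * (p0 - p1)) + ((1 + x) * s + x * c) * (4 * c * t * p2 - (1 - x) * (p0 + p1) -
        ((1 + x) * c + (1 - x) * s) * K * (p0 - p1))) / (c - (1 + x) * s) := by
    rw [eq_div_iff hD]
    linear_combination (w2 * (-(4 * t * (1 + x) * p2) + x * (1 + x) * K * (p0 - p1))) * hE
  have h2 : w1 * (4 * c * t * p2 - (p0 + p1) + (c - s) * K * (p0 - p1)) =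
    w1 * (c * (4 * (c - x * s) * t * p2 - (p0 + p1) + (c + s) * K * (p0 - p1)) + s * (4 * c * t * p2 - (1 - x) * (p0 + p1) -
        ((1 + x) * c + (1 - x) * s) * K * (p0 - p1))) / (c + (1 - x) * s) := by
    rw [eq_div_iff hG]
    ring
  have h3 : w3 * (4 * (c - s) * t * p2 - 2 * K * (c - x * s) * (p0 - p1)) =
    w3 * ((1 - x) * (-(4 * t * p2) + ((2 - x) * c - x * s) * (p0 + p1) + x * K * (p0 - p1)) + ((2 - x) * c - x * s) * (4 * c * t * p2 - (1 - x) * (p0 + p1) -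
        ((1 + x) * c + (1 - x) * s) * K * (p0 - p1))) / (c + (1 - x) * s) := by
    rw [eq_div_iff hG]
    linear_combination (w3 * (-(4 * t * (1 - x) * p2) + (1 - x) * x * K * (p0 - p1))) * hE
  rw [h1, h2, h3]
  ring

private theorem kA3 (c s x K t w1 w2 w3 p0 p1 p2 : ℝ) (hE : c ^ 2 + s ^ 2 = 1)
    (hD : c - (1 + x) * s ≠ 0) (hG : c + (1 - x) * s ≠ 0) :
    -(w1 * (4 * t * p2 - (c + s) * (p0 + p1) + K * (p0 - p1))) -
      w2 * ((1 - x) * ((c - s) * (p0 + p1) - K * (p0 - p1))) +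
      w3 * (4 * t * p2 + ((2 - x) * s + x * c) * (p0 + p1) - x * K * (p0 - p1)) =
    w3 * ((4 * (c - x * s) * t * p2 - (p0 + p1) + (c + s) * K * (p0 - p1)) + (1 + x) * (4 * c * t * p2 - (1 - x) * (p0 + p1) -
        ((1 + x) * c + (1 - x) * s) * K * (p0 - p1)) + ((1 + x) * c + s) * (-(4 * t * p2) + ((2 - x) * c - x * s) * (p0 + p1) + x * K * (p0 - p1))) / (c - (1 + x) * s) -
    w1 * ((4 * (c - x * s) * t * p2 - (p0 + p1) + (c + s) * K * (p0 - p1)) - s * (-(4 * t * p2) + ((2 - x) * c - x * s) * (p0 + p1) + x * K * (p0 - p1))) / (c + (1 - x) * s) -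
    w2 * ((1 - x) * (4 * c * t * p2 - (1 - x) * (p0 + p1) -
        ((1 + x) * c + (1 - x) * s) * K * (p0 - p1)) + (1 - x) * c * (-(4 * t * p2) + ((2 - x) * c - x * s) * (p0 + p1) + x * K * (p0 - p1))) / (c + (1 - x) * s) := by
  have h1 : w3 * (4 * t * p2 + ((2 - x) * s + x * c) * (p0 + p1) - x * K * (p0 - p1)) =
    w3 * ((4 * (c - x * s) * t * p2 - (p0 + p1) + (c + s) * K * (p0 - p1)) + (1 + x) * (4 * c * t * p2 - (1 - x) * (p0 + p1) -
        ((1 + x) * c + (1 - x) * s) * K * (p0 - p1)) + ((1 + x) * c + s) * (-(4 * t * p2) + ((2 - x) * c - x * s) * (p0 + p1) + x * K * (p0 - p1))) / (c - (1 + x) * s) := by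
    rw [eq_div_iff hD]
    linear_combination (w3 * ((x ^ 2 - 2) * (p0 + p1))) * hE
  have h2 : w1 * (4 * t * p2 - (c + s) * (p0 + p1) + K * (p0 - p1)) =
    w1 * ((4 * (c - x * s) * t * p2 - (p0 + p1) + (c + s) * K * (p0 - p1)) - s * (-(4 * t * p2) + ((2 - x) * c - x * s) * (p0 + p1) + x * K * (p0 - p1))) / (c + (1 - x) * s) := by
    rw [eq_div_iff hG]
    linear_combination (-(w1 * (p0 + p1))) * hE
  have h3 : w2 * ((1 - x) * ((c - s) * (p0 + p1) - K * (p0 - p1))) =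
    w2 * ((1 - x) * (4 * c * t * p2 - (1 - x) * (p0 + p1) -
        ((1 + x) * c + (1 - x) * s) * K * (p0 - p1)) + (1 - x) * c * (-(4 * t * p2) + ((2 - x) * c - x * s) * (p0 + p1) + x * K * (p0 - p1))) / (c + (1 - x) * s) := by
    rw [eq_div_iff hG]
    linear_combination (-(w2 * (1 - x) ^ 2 * (p0 + p1))) * hE
  rw [h1, h2, h3]
  ring

/-- derivative of the first coordinate form -/
theorem hasDerivAt_A1 {e h t : ℝ → ℝ} {u w1 w2 w3 : ℝ} (p : Fin 3 → ℝ)
    (he : HasDerivAt e (-(w1 + w3)) u) (hh : HasDerivAt h (-(w2 + w3)) u)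
    (ht : HasDerivAt t ((w1 - w3) * t u) u) (hD : D (e u) (h u) ≠ 0) (hG : G (e u) (h u) ≠ 0) :
    HasDerivAt (fun u => A1 (e u) (h u) (t u) p)
      (w1 * ((cos (h u) - (e u - h u) * sin (h u)) * A1 (e u) (h u) (t u) p +
          cos (h u) * A2 (e u) (h u) (t u) p + A3 (e u) (h u) (t u) p) / D (e u) (h u) +
        w2 * (cos (h u) * (A2 (e u) (h u) (t u) p -
          (1 - (e u - h u)) * A1 (e u) (h u) (t u) p)) / G (e u) (h u) -
        w3 * (A3 (e u) (h u) (t u) p + ((2 - (e u - h u)) * cos (h u) -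
          (e u - h u) * sin (h u)) * A1 (e u) (h u) (t u) p) / G (e u) (h u)) u := by
  have hcos : HasDerivAt (fun u => cos (h u)) (-sin (h u) * (-(w2 + w3))) u := hh.cos
  have hsin : HasDerivAt (fun u => sin (h u)) (cos (h u) * (-(w2 + w3))) u := hh.sin
  have hK : HasDerivAt (fun u => exp (h u)) (exp (h u) * (-(w2 + w3))) u := hh.exp
  have hx : HasDerivAt (fun u => e u - h u) (-(w1 + w3) - (-(w2 + w3))) u := he.sub hh
  have hE : cos (h u) ^ 2 + sin (h u) ^ 2 = 1 := by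
    rw [add_comm]; exact sin_sq_add_cos_sq _
  have h1 := (((((hcos.sub (hx.mul hsin)).const_mul 4).mul ht).mul_const (p 2)).sub_const
    (p 0 + p 1)).add (((hcos.add hsin).mul hK).mul_const (p 0 - p 1))
  refine h1.congr_deriv ?_
  have hk := kA1 (cos (h u)) (sin (h u)) (e u - h u) (exp (h u)) (t u) w1 w2 w3 (p 0) (p 1) (p 2)
    hE hD hG
  unfold A1 A2 A3 D G
  rw [← hk]
  simp only [Pi.sub_apply, Pi.add_apply, Pi.mul_apply]
  ring

/-- derivative of the second coordinate form -/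
theorem hasDerivAt_A2 {e h t : ℝ → ℝ} {u w1 w2 w3 : ℝ} (p : Fin 3 → ℝ)
    (he : HasDerivAt e (-(w1 + w3)) u) (hh : HasDerivAt h (-(w2 + w3)) u)
    (ht : HasDerivAt t ((w1 - w3) * t u) u) (hD : D (e u) (h u) ≠ 0) (hG : G (e u) (h u) ≠ 0) :
    HasDerivAt (fun u => A2 (e u) (h u) (t u) p)
      (w2 * (cos (h u) * A1 (e u) (h u) (t u) p +
          (1 + (e u - h u)) * A3 (e u) (h u) (t u) p + ((1 + (e u - h u)) * sin (h u) +
            (e u - h u) * cos (h u)) * A2 (e u) (h u) (t u) p) / D (e u) (h u) +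
        w1 * (cos (h u) * A1 (e u) (h u) (t u) p + sin (h u) * A2 (e u) (h u) (t u) p) /
          G (e u) (h u) -
        w3 * ((1 - (e u - h u)) * A3 (e u) (h u) (t u) p + ((2 - (e u - h u)) * cos (h u) -
          (e u - h u) * sin (h u)) * A2 (e u) (h u) (t u) p) / G (e u) (h u)) u := by
  have hcos : HasDerivAt (fun u => cos (h u)) (-sin (h u) * (-(w2 + w3))) u := hh.cos
  have hsin : HasDerivAt (fun u => sin (h u)) (cos (h u) * (-(w2 + w3))) u := hh.sin
  have hK : HasDerivAt (fun u => exp (h u)) (exp (h u) * (-(w2 + w3))) u := hh.exp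
  have hx : HasDerivAt (fun u => e u - h u) (-(w1 + w3) - (-(w2 + w3))) u := he.sub hh
  have hE : cos (h u) ^ 2 + sin (h u) ^ 2 = 1 := by
    rw [add_comm]; exact sin_sq_add_cos_sq _
  have h1 := ((((hcos.const_mul 4).mul ht).mul_const (p 2)).sub
    (((hasDerivAt_const u (1 : ℝ)).sub hx).mul_const (p 0 + p 1))).sub
    ((((((hasDerivAt_const u (1 : ℝ)).add hx).mul hcos).add
      (((hasDerivAt_const u (1 : ℝ)).sub hx).mul hsin)).mul hK).mul_const (p 0 - p 1))
  refine h1.congr_deriv ?_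
  have hk := kA2 (cos (h u)) (sin (h u)) (e u - h u) (exp (h u)) (t u) w1 w2 w3 (p 0) (p 1) (p 2)
    hE hD hG
  unfold A1 A2 A3 D G
  rw [← hk]
  simp only [Pi.sub_apply, Pi.add_apply, Pi.mul_apply]
  ring

/-- derivative of the third coordinate form -/
theorem hasDerivAt_A3 {e h t : ℝ → ℝ} {u w1 w2 w3 : ℝ} (p : Fin 3 → ℝ)
    (he : HasDerivAt e (-(w1 + w3)) u) (hh : HasDerivAt h (-(w2 + w3)) u)
    (ht : HasDerivAt t ((w1 - w3) * t u) u) (hD : D (e u) (h u) ≠ 0) (hG : G (e u) (h u) ≠ 0) :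
    HasDerivAt (fun u => A3 (e u) (h u) (t u) p)
      (w3 * (A1 (e u) (h u) (t u) p + (1 + (e u - h u)) * A2 (e u) (h u) (t u) p +
          ((1 + (e u - h u)) * cos (h u) + sin (h u)) * A3 (e u) (h u) (t u) p) /
          D (e u) (h u) -
        w1 * (A1 (e u) (h u) (t u) p - sin (h u) * A3 (e u) (h u) (t u) p) / G (e u) (h u) -
        w2 * ((1 - (e u - h u)) * A2 (e u) (h u) (t u) p +
          (1 - (e u - h u)) * cos (h u) * A3 (e u) (h u) (t u) p) / G (e u) (h u)) u := by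
  have hcos : HasDerivAt (fun u => cos (h u)) (-sin (h u) * (-(w2 + w3))) u := hh.cos
  have hsin : HasDerivAt (fun u => sin (h u)) (cos (h u) * (-(w2 + w3))) u := hh.sin
  have hK : HasDerivAt (fun u => exp (h u)) (exp (h u) * (-(w2 + w3))) u := hh.exp
  have hx : HasDerivAt (fun u => e u - h u) (-(w1 + w3) - (-(w2 + w3))) u := he.sub hh
  have hE : cos (h u) ^ 2 + sin (h u) ^ 2 = 1 := by
    rw [add_comm]; exact sin_sq_add_cos_sq _
  have h1 := ((((ht.const_mul 4).mul_const (p 2)).neg).add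
    (((((hasDerivAt_const u (2 : ℝ)).sub hx).mul hcos).sub (hx.mul hsin)).mul_const
      (p 0 + p 1))).add ((hx.mul hK).mul_const (p 0 - p 1))
  refine h1.congr_deriv ?_
  have hk := kA3 (cos (h u)) (sin (h u)) (e u - h u) (exp (h u)) (t u) w1 w2 w3 (p 0) (p 1) (p 2)
    hE hD hG
  unfold A1 A2 A3 D G
  rw [← hk]
  simp only [Pi.sub_apply, Pi.mul_apply]
  ring

end Pool.Agent.Helper92.S2
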