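import Mathlib
import Pool.Agent.Helper92.S2.Basic
import Pool.Agent.Helper92.S2.Deriv

/-!
# A local descent step
-/

namespace Pool.Agent.Helper92.S2

open Real Filter Topology

private theorem ev_pos_of_deriv {f : ℝ → ℝ} {f' : ℝ} (hf : HasDerivAt f f' 0)
    (h : 0 ≤ f 0) (h' : f 0 = 0 → 0 < f') : ∀ᶠ u in 𝓝[>] (0 : ℝ), 0 ≤ f u := by
  rcases eq_or_lt_of_le h with h0 | h0
  · have hp := h' h0.symm
    have ht := hasDerivAt_iff_tendsto_slope_zero.mp hf
    have hev : ∀ᶠ u in 𝓝[≠] (0 : ℝ), 0 < u⁻¹ • (f (0 + u) - f 0) := ht.eventually_const_lt hp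
    have hev2 : ∀ᶠ u in 𝓝[>] (0 : ℝ), 0 < u⁻¹ • (f (0 + u) - f 0) :=
      hev.filter_mono (nhdsWithin_mono _ (fun x (hx : 0 < x) => ne_of_gt hx))
    filter_upwards [hev2, self_mem_nhdsWithin] with u hu hu0
    have hu0' : 0 < u := hu0
    rw [← h0, zero_add, sub_zero, smul_eq_mul] at hu
    have := mul_pos hu0' hu
    rw [← mul_assoc, mul_inv_cancel₀ hu0'.ne', one_mul] at this
    exact this.le
  · have : ∀ᶠ u in 𝓝 (0 : ℝ), 0 < f u := hf.continuousAt.eventually_const_lt h0
    exact (this.filter_mono nhdsWithin_le_nhds).mono fun u hu => hu.le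

/-- the sum of the products -/
noncomputable def dsum (w1 w2 w3 e h t : ℝ) (p r : Fin 3 → ℝ) : ℝ :=
  w1 * A1 e h t p * A1 e h t r + w2 * A2 e h t p * A2 e h t r + w3 * A3 e h t p * A3 e h t r

/-- If a small backward move with speeds `w1, w2, w3` keeps `r` in the cone and the sum `dsum`
is negative just after the start, then the form can be decreased. -/
theorem local_move {E e0 h0 t0 w1 w2 w3 : ℝ} (p r : Fin 3 → ℝ) (hw1 : 0 ≤ w1) (_hw2 : 0 ≤ w2)
    (hw3 : 0 ≤ w3) (hh0 : 0 < h0) (hhe : h0 ≤ e0) (heE : e0 ≤ E) (hE : E < π / 4) (ht0 : 0 < t0)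
    (hx : h0 < e0 ∨ w1 ≤ w2)
    (b1 : 0 ≤ A1 e0 h0 t0 r) (b2 : 0 ≤ A2 e0 h0 t0 r) (b3 : 0 ≤ A3 e0 h0 t0 r)
    (d1 : A1 e0 h0 t0 r = 0 → 0 < w1 * (cos h0 * A2 e0 h0 t0 r + A3 e0 h0 t0 r) / D e0 h0 +
      w2 * (cos h0 * A2 e0 h0 t0 r) / G e0 h0 - w3 * A3 e0 h0 t0 r / G e0 h0)
    (d2 : A2 e0 h0 t0 r = 0 → 0 < w2 * (cos h0 * A1 e0 h0 t0 r + (1 + (e0 - h0)) *
      A3 e0 h0 t0 r) / D e0 h0 + w1 * (cos h0 * A1 e0 h0 t0 r) / G e0 h0 -
      w3 * ((1 - (e0 - h0)) * A3 e0 h0 t0 r) / G e0 h0)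
    (d3 : A3 e0 h0 t0 r = 0 → 0 < w3 * (A1 e0 h0 t0 r + (1 + (e0 - h0)) * A2 e0 h0 t0 r) /
      D e0 h0 - w1 * A1 e0 h0 t0 r / G e0 h0 -
      w2 * ((1 - (e0 - h0)) * A2 e0 h0 t0 r) / G e0 h0)
    (hs : ∀ᶠ u in 𝓝[>] (0 : ℝ), dsum w1 w2 w3 (e0 - (w1 + w3) * u) (h0 - (w2 + w3) * u)
      (t0 * exp ((w1 - w3) * u)) p r < 0) :
    ∃ e h t, 0 < h ∧ h ≤ e ∧ e ≤ E ∧ 0 < t ∧ 0 ≤ A1 e h t r ∧ 0 ≤ A2 e h t r ∧
      0 ≤ A3 e h t r ∧ form e h t p r < form e0 h0 t0 p r := by
  set ec : ℝ → ℝ := fun u => e0 - (w1 + w3) * u with hec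
  set hc : ℝ → ℝ := fun u => h0 - (w2 + w3) * u with hhc
  set tc : ℝ → ℝ := fun u => t0 * exp ((w1 - w3) * u) with htc
  have he : ∀ u, HasDerivAt ec (-(w1 + w3)) u := fun u => by
    have := ((hasDerivAt_id u).const_mul (w1 + w3)).const_sub e0
    simpa using this
  have hh : ∀ u, HasDerivAt hc (-(w2 + w3)) u := fun u => by
    have := ((hasDerivAt_id u).const_mul (w2 + w3)).const_sub h0
    simpa using this
  have ht : ∀ u, HasDerivAt tc ((w1 - w3) * tc u) u := fun u => by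
    have := (((hasDerivAt_id u).const_mul (w1 - w3)).exp).const_mul t0
    refine this.congr_deriv ?_
    simp only [htc, id]
    ring
  have htpos : ∀ u, 0 < tc u := fun u => mul_pos ht0 (exp_pos _)
  have e00 : ec 0 = e0 := by simp [hec]
  have h00 : hc 0 = h0 := by simp [hhc]
  have t00 : tc 0 = t0 := by simp [htc]
  have hD0 : D (ec 0) (hc 0) ≠ 0 := by
    rw [e00, h00]
    exact (D_pos e0 h0 hh0.le hhe (by linarith)).ne'
  have hG0 : G (ec 0) (hc 0) ≠ 0 := by
    rw [e00, h00]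
    exact (G_pos e0 h0 hh0.le hhe (by linarith)).ne'
  have dA1 := hasDerivAt_A1 r (he 0) (hh 0) (ht 0) hD0 hG0
  have dA2 := hasDerivAt_A2 r (he 0) (hh 0) (ht 0) hD0 hG0
  have dA3 := hasDerivAt_A3 r (he 0) (hh 0) (ht 0) hD0 hG0
  rw [e00, h00, t00] at dA1 dA2 dA3
  have ev1 : ∀ᶠ u in 𝓝[>] (0 : ℝ), 0 ≤ A1 (ec u) (hc u) (tc u) r := by
    refine ev_pos_of_deriv dA1 (by simpa only [e00, h00, t00] using b1) (fun h => ?_)
    rw [e00, h00, t00] at h
    have := d1 h
    rw [h]
    simpa using this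
  have ev2 : ∀ᶠ u in 𝓝[>] (0 : ℝ), 0 ≤ A2 (ec u) (hc u) (tc u) r := by
    refine ev_pos_of_deriv dA2 (by simpa only [e00, h00, t00] using b2) (fun h => ?_)
    rw [e00, h00, t00] at h
    have := d2 h
    rw [h]
    simpa using this
  have ev3 : ∀ᶠ u in 𝓝[>] (0 : ℝ), 0 ≤ A3 (ec u) (hc u) (tc u) r := by
    refine ev_pos_of_deriv dA3 (by simpa only [e00, h00, t00] using b3) (fun h => ?_)
    rw [e00, h00, t00] at h
    have := d3 h
    rw [h]
    simpa using this
  have ev4 : ∀ᶠ u in 𝓝[>] (0 : ℝ), 0 < hc u := by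
    have : ∀ᶠ u in 𝓝 (0 : ℝ), 0 < hc u :=
      (hh 0).continuousAt.eventually_const_lt (by rw [h00]; exact hh0)
    exact this.filter_mono nhdsWithin_le_nhds
  have ev5 : ∀ᶠ u in 𝓝[>] (0 : ℝ), hc u ≤ ec u := by
    rcases hx with hx | hx
    · have : ∀ᶠ u in 𝓝 (0 : ℝ), 0 < ec u - hc u :=
        ((he 0).continuousAt.sub (hh 0).continuousAt).eventually_const_lt
          (show (0 : ℝ) < ec 0 - hc 0 by rw [e00, h00]; linarith)
      exact (this.filter_mono nhdsWithin_le_nhds).mono fun u hu => by linarith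
    · filter_upwards [self_mem_nhdsWithin] with u hu
      have hu' : 0 < u := hu
      simp only [hec, hhc]
      nlinarith [mul_nonneg (sub_nonneg.mpr hx) hu'.le]
  have evall := ev1.and (ev2.and (ev3.and (ev4.and (ev5.and hs))))
  obtain ⟨δ, hδ, hsub⟩ := mem_nhdsGT_iff_exists_Ioo_subset.mp evall
  have hδ0 : (0 : ℝ) < δ := hδ
  set v : ℝ := δ / 2 with hv
  have hv0 : 0 < v := by positivity
  have hP : ∀ u ∈ Set.Ioc (0 : ℝ) v, 0 ≤ A1 (ec u) (hc u) (tc u) r ∧
      0 ≤ A2 (ec u) (hc u) (tc u) r ∧ 0 ≤ A3 (ec u) (hc u) (tc u) r ∧ 0 < hc u ∧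
      hc u ≤ ec u ∧ dsum w1 w2 w3 (ec u) (hc u) (tc u) p r < 0 := by
    intro u hu
    exact hsub ⟨hu.1, by have := hu.2; rw [hv] at this; linarith⟩
  have heE' : ∀ u, 0 ≤ u → ec u ≤ e0 := by
    intro u hu
    simp only [hec]
    nlinarith [mul_nonneg (add_nonneg hw1 hw3) hu]
  have hregion : ∀ u ∈ Set.Icc (0 : ℝ) v, 0 ≤ hc u ∧ hc u ≤ ec u ∧ ec u < π / 4 := by
    intro u hu
    rcases eq_or_lt_of_le hu.1 with h | h
    · rw [← h, e00, h00]
      exact ⟨hh0.le, hhe, by linarith⟩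
    · obtain ⟨-, -, -, h4, h5, -⟩ := hP u ⟨h, hu.2⟩
      exact ⟨h4.le, h5, by linarith [heE' u hu.1]⟩
  have hder : ∀ u ∈ Set.Icc (0 : ℝ) v, HasDerivAt (fun u => form (ec u) (hc u) (tc u) p r)
      (exp (-(ec u)) / (8 * G (ec u) (hc u) ^ 2 * tc u) *
        dsum w1 w2 w3 (ec u) (hc u) (tc u) p r) u := by
    intro u hu
    obtain ⟨r1, r2, r3⟩ := hregion u hu
    exact hasDerivAt_form' p r (he u) (hh u) (ht u) (htpos u).ne'
      (G_pos _ _ r1 r2 r3.le).ne'
  obtain ⟨u, hu, hval⟩ := exists_hasDerivAt_eq_slope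
    (fun u => form (ec u) (hc u) (tc u) p r) (fun u => exp (-(ec u)) /
      (8 * G (ec u) (hc u) ^ 2 * tc u) * dsum w1 w2 w3 (ec u) (hc u) (tc u) p r) hv0
    (fun u hu => (hder u hu).continuousAt.continuousWithinAt)
    (fun u hu => hder u ⟨hu.1.le, hu.2.le⟩)
  have hneg : exp (-(ec u)) / (8 * G (ec u) (hc u) ^ 2 * tc u) *
      dsum w1 w2 w3 (ec u) (hc u) (tc u) p r < 0 := by
    obtain ⟨r1, r2, r3⟩ := hregion u ⟨hu.1.le, hu.2.le⟩
    have hGp := G_pos _ _ r1 r2 r3.le
    have := (hP u ⟨hu.1, hu.2.le⟩).2.2.2.2.2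
    have htp := htpos u
    exact mul_neg_of_pos_of_neg (by positivity) this
  have hlt : form (ec v) (hc v) (tc v) p r < form e0 h0 t0 p r := by
    simp only [e00, h00, t00, sub_zero] at hval
    rw [hval, div_neg_iff] at hneg
    rcases hneg with h | h
    · linarith [h.2]
    · linarith [h.1]
  obtain ⟨q1, q2, q3, q4, q5, -⟩ := hP v ⟨hv0, le_rfl⟩
  exact ⟨ec v, hc v, tc v, q4, q5, le_trans (heE' v hv0.le) heE, htpos v, q1, q2, q3, hlt⟩


/-- speed of the first coordinate on the face where it vanishes -/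
noncomputable def bt1 (w1 w2 w3 e h t : ℝ) (r : Fin 3 → ℝ) : ℝ :=
  w1 * (cos h * A2 e h t r + A3 e h t r) / D e h + w2 * (cos h * A2 e h t r) / G e h -
    w3 * A3 e h t r / G e h

/-- speed of the second coordinate on the face where it vanishes -/
noncomputable def bt2 (w1 w2 w3 e h t : ℝ) (r : Fin 3 → ℝ) : ℝ :=
  w2 * (cos h * A1 e h t r + (1 + (e - h)) * A3 e h t r) / D e h +
    w1 * (cos h * A1 e h t r) / G e h - w3 * ((1 - (e - h)) * A3 e h t r) / G e h

/-- speed of the third coordinate on the face where it vanishes -/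
noncomputable def bt3 (w1 w2 w3 e h t : ℝ) (r : Fin 3 → ℝ) : ℝ :=
  w3 * (A1 e h t r + (1 + (e - h)) * A2 e h t r) / D e h - w1 * A1 e h t r / G e h -
    w2 * ((1 - (e - h)) * A2 e h t r) / G e h

private theorem ev_neg_of_deriv {f : ℝ → ℝ} {f' : ℝ} (hf : HasDerivAt f f' 0)
    (h : f 0 < 0 ∨ (f 0 = 0 ∧ f' < 0)) : ∀ᶠ u in 𝓝[>] (0 : ℝ), f u < 0 := by
  rcases h with h0 | ⟨h0, hp⟩
  · have : ∀ᶠ u in 𝓝 (0 : ℝ), f u < 0 := hf.continuousAt.eventually_lt_const h0
    exact this.filter_mono nhdsWithin_le_nhds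
  · have ht := hasDerivAt_iff_tendsto_slope_zero.mp hf
    have hev : ∀ᶠ u in 𝓝[≠] (0 : ℝ), u⁻¹ • (f (0 + u) - f 0) < 0 := ht.eventually_lt_const hp
    have hev2 : ∀ᶠ u in 𝓝[>] (0 : ℝ), u⁻¹ • (f (0 + u) - f 0) < 0 :=
      hev.filter_mono (nhdsWithin_mono _ (fun x (hx : 0 < x) => ne_of_gt hx))
    filter_upwards [hev2, self_mem_nhdsWithin] with u hu hu0
    have hu0' : 0 < u := hu0
    rw [h0, zero_add, sub_zero, smul_eq_mul] at hu
    have := mul_neg_of_pos_of_neg hu0' hu
    rw [← mul_assoc, mul_inv_cancel₀ hu0'.ne', one_mul] at this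
    exact this

/-- first or second order descent condition -/
def Desc (w1 w2 w3 e h t : ℝ) (p r : Fin 3 → ℝ) : Prop :=
  dsum w1 w2 w3 e h t p r < 0 ∨ (w1 * A1 e h t r = 0 ∧ w2 * A2 e h t r = 0 ∧
    w3 * A3 e h t r = 0 ∧ w1 * A1 e h t p * bt1 w1 w2 w3 e h t r +
      w2 * A2 e h t p * bt2 w1 w2 w3 e h t r + w3 * A3 e h t p * bt3 w1 w2 w3 e h t r < 0)

/-- no admissible descending move starts at a minimiser, main family only -/
private theorem no_move_main {E e0 h0 t0 w1 w2 w3 : ℝ} (p r : Fin 3 → ℝ) (hw1 : 0 ≤ w1)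
    (hw2 : 0 ≤ w2) (hw3 : 0 ≤ w3) (hh0 : 0 < h0) (hhe : h0 ≤ e0) (heE : e0 ≤ E)
    (hE : E < π / 4) (ht0 : 0 < t0) (hx : h0 < e0 ∨ w1 ≤ w2)
    (b1 : 0 ≤ A1 e0 h0 t0 r) (b2 : 0 ≤ A2 e0 h0 t0 r) (b3 : 0 ≤ A3 e0 h0 t0 r)
    (m : ℝ) (hm : m = form e0 h0 t0 p r)
    (M : ∀ e h t, 0 < h → h ≤ e → e ≤ E → 0 < t → 0 ≤ A1 e h t r → 0 ≤ A2 e h t r →
      0 ≤ A3 e h t r → m ≤ form e h t p r)
    (d1 : A1 e0 h0 t0 r = 0 → 0 < bt1 w1 w2 w3 e0 h0 t0 r)
    (d2 : A2 e0 h0 t0 r = 0 → 0 < bt2 w1 w2 w3 e0 h0 t0 r)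
    (d3 : A3 e0 h0 t0 r = 0 → 0 < bt3 w1 w2 w3 e0 h0 t0 r)
    (H : Desc w1 w2 w3 e0 h0 t0 p r) : False := by
  have hs : ∀ᶠ u in 𝓝[>] (0 : ℝ), dsum w1 w2 w3 (e0 - (w1 + w3) * u) (h0 - (w2 + w3) * u)
      (t0 * exp ((w1 - w3) * u)) p r < 0 := by
    have he : HasDerivAt (fun u : ℝ => e0 - (w1 + w3) * u) (-(w1 + w3)) 0 := by
      have := ((hasDerivAt_id (0 : ℝ)).const_mul (w1 + w3)).const_sub e0
      simpa using this
    have hh : HasDerivAt (fun u : ℝ => h0 - (w2 + w3) * u) (-(w2 + w3)) 0 := by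
      have := ((hasDerivAt_id (0 : ℝ)).const_mul (w2 + w3)).const_sub h0
      simpa using this
    have ht : HasDerivAt (fun u : ℝ => t0 * exp ((w1 - w3) * u))
        ((w1 - w3) * ((fun u : ℝ => t0 * exp ((w1 - w3) * u)) 0)) 0 := by
      have := (((hasDerivAt_id (0 : ℝ)).const_mul (w1 - w3)).exp).const_mul t0
      refine this.congr_deriv ?_
      simp only [id]
      ring
    have hD0 : D ((fun u : ℝ => e0 - (w1 + w3) * u) 0) ((fun u : ℝ => h0 - (w2 + w3) * u) 0)
        ≠ 0 := by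
      simp only [mul_zero, sub_zero]
      exact (D_pos e0 h0 hh0.le hhe (by linarith)).ne'
    have hG0 : G ((fun u : ℝ => e0 - (w1 + w3) * u) 0) ((fun u : ℝ => h0 - (w2 + w3) * u) 0)
        ≠ 0 := by
      simp only [mul_zero, sub_zero]
      exact (G_pos e0 h0 hh0.le hhe (by linarith)).ne'
    have r1 := hasDerivAt_A1 r he hh ht hD0 hG0
    have r2 := hasDerivAt_A2 r he hh ht hD0 hG0
    have r3 := hasDerivAt_A3 r he hh ht hD0 hG0
    have p1 := hasDerivAt_A1 p he hh ht hD0 hG0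
    have p2 := hasDerivAt_A2 p he hh ht hD0 hG0
    have p3 := hasDerivAt_A3 p he hh ht hD0 hG0
    simp only [mul_zero, sub_zero, exp_zero, mul_one] at r1 r2 r3 p1 p2 p3
    have hD := (D_pos e0 h0 hh0.le hhe (by linarith)).ne'
    have hG := (G_pos e0 h0 hh0.le hhe (by linarith)).ne'
    set c := cos h0 with hc
    set s := sin h0 with hsn
    set x := e0 - h0 with hxx
    set g := G e0 h0 with hg
    set d := D e0 h0 with hd
    obtain ⟨P1, hP1⟩ : ∃ y, y = w1 * ((c - x * s) * A1 e0 h0 t0 p + c * A2 e0 h0 t0 p +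
        A3 e0 h0 t0 p) / d + w2 * (c * (A2 e0 h0 t0 p - (1 - x) * A1 e0 h0 t0 p)) / g -
        w3 * (A3 e0 h0 t0 p + ((2 - x) * c - x * s) * A1 e0 h0 t0 p) / g := ⟨_, rfl⟩
    obtain ⟨P2, hP2⟩ : ∃ y, y = w2 * (c * A1 e0 h0 t0 p + (1 + x) * A3 e0 h0 t0 p +
        ((1 + x) * s + x * c) * A2 e0 h0 t0 p) / d + w1 * (c * A1 e0 h0 t0 p +
        s * A2 e0 h0 t0 p) / g - w3 * ((1 - x) * A3 e0 h0 t0 p + ((2 - x) * c - x * s) *
        A2 e0 h0 t0 p) / g := ⟨_, rfl⟩
    obtain ⟨P3, hP3⟩ : ∃ y, y = w3 * (A1 e0 h0 t0 p + (1 + x) * A2 e0 h0 t0 p +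
        ((1 + x) * c + s) * A3 e0 h0 t0 p) / d - w1 * (A1 e0 h0 t0 p - s * A3 e0 h0 t0 p) / g -
        w2 * ((1 - x) * A2 e0 h0 t0 p + (1 - x) * c * A3 e0 h0 t0 p) / g := ⟨_, rfl⟩
    rw [← hP1] at p1
    rw [← hP2] at p2
    rw [← hP3] at p3
    have hsum := ((((p1.const_mul w1).mul r1).add ((p2.const_mul w2).mul r2)).add
      ((p3.const_mul w3).mul r3))
    refine ev_neg_of_deriv hsum ?_
    simp only [mul_zero, sub_zero, exp_zero, mul_one]
    rcases H with H | ⟨z1, z2, z3, H⟩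
    · left
      exact H
    · right
      constructor
      · unfold dsum
        linear_combination A1 e0 h0 t0 p * z1 + A2 e0 h0 t0 p * z2 + A3 e0 h0 t0 p * z3
      · refine lt_of_eq_of_lt ?_ H
        unfold bt1 bt2 bt3
        rw [← hc, ← hxx, ← hg, ← hd]

        linear_combination (P1 + A1 e0 h0 t0 p * ((c - x * s) * w1 / d -
            w2 * c * (1 - x) / g - w3 * ((2 - x) * c - x * s) / g)) * z1 +
          (P2 + A2 e0 h0 t0 p * (w2 * ((1 + x) * s + x * c) / d + w1 * s / g -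
            w3 * ((2 - x) * c - x * s) / g)) * z2 +
          (P3 + A3 e0 h0 t0 p * (w3 * ((1 + x) * c + s) / d + w1 * s / g -
            w2 * (1 - x) * c / g)) * z3
  obtain ⟨e, h, t, q1, q2, q3, q4, q5, q6, q7, q8⟩ := local_move p r hw1 hw2 hw3 hh0 hhe heE hE
    ht0 hx b1 b2 b3 (fun h => d1 h) (fun h => d2 h) (fun h => d3 h) hs
  have := M e h t q1 q2 q3 q4 q5 q6 q7
  linarith

theorem A1_diag_bar (h t : ℝ) (p : Fin 3 → ℝ) : A1 h h t (bar p) = A2 h h t p := by
  unfold A1 A2 bar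
  simp only [Matrix.cons_val_zero, Matrix.cons_val_one, Matrix.cons_val, sub_self]
  ring

theorem A2_diag_bar (h t : ℝ) (p : Fin 3 → ℝ) : A2 h h t (bar p) = A1 h h t p := by
  unfold A1 A2 bar
  simp only [Matrix.cons_val_zero, Matrix.cons_val_one, Matrix.cons_val, sub_self]
  ring

theorem A3_diag_bar (h t : ℝ) (p : Fin 3 → ℝ) : A3 h h t (bar p) = A3 h h t p := by
  unfold A3 bar
  simp only [Matrix.cons_val_zero, Matrix.cons_val_one, Matrix.cons_val, sub_self]
  ring

theorem form_diag_bar (h t : ℝ) (hG : G h h ≠ 0) (p r : Fin 3 → ℝ) :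
    form h h t (bar p) (bar r) = form h h t p r := by
  have hE : exp (-h) * exp h = 1 := by rw [← exp_add]; simp
  have hG' : cos h + sin h ≠ 0 := by
    simpa [G] using hG
  unfold form X bar G D
  simp only [Matrix.cons_val_zero, Matrix.cons_val_one, Matrix.cons_val, sub_self, sub_zero,
    one_mul, add_zero]
  have key : ∀ y : ℝ, exp (-h) / (cos h + sin h) * ((cos h + sin h) * exp h * y) = y := by
    intro y
    field_simp
    linear_combination y * hE
  have k1 := key ((p 0 - p 1) * r 2)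
  have k2 := key ((r 0 - r 1) * p 2)
  linear_combination -k1 - k2

/-- no admissible descending move starts at a minimiser -/
theorem no_move {E e0 h0 t0 w1 w2 w3 : ℝ} (p r : Fin 3 → ℝ) (hw1 : 0 ≤ w1)
    (hw2 : 0 ≤ w2) (hw3 : 0 ≤ w3) (hh0 : 0 < h0) (hhe : h0 ≤ e0) (heE : e0 ≤ E)
    (hE : E < π / 4) (ht0 : 0 < t0)
    (b1 : 0 ≤ A1 e0 h0 t0 r) (b2 : 0 ≤ A2 e0 h0 t0 r) (b3 : 0 ≤ A3 e0 h0 t0 r)
    (M : ∀ e h t, 0 < h → h ≤ e → e ≤ E → 0 < t → 0 ≤ A1 e h t r → 0 ≤ A2 e h t r →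
      0 ≤ A3 e h t r → form e0 h0 t0 p r ≤ form e h t p r)
    (M2 : ∀ e h t, 0 < h → h ≤ e → e ≤ E → 0 < t → 0 ≤ A1 e h t (bar r) →
      0 ≤ A2 e h t (bar r) → 0 ≤ A3 e h t (bar r) →
      form e0 h0 t0 p r ≤ form e h t (bar p) (bar r))
    (d1 : A1 e0 h0 t0 r = 0 → 0 < bt1 w1 w2 w3 e0 h0 t0 r)
    (d2 : A2 e0 h0 t0 r = 0 → 0 < bt2 w1 w2 w3 e0 h0 t0 r)
    (d3 : A3 e0 h0 t0 r = 0 → 0 < bt3 w1 w2 w3 e0 h0 t0 r)
    (H : Desc w1 w2 w3 e0 h0 t0 p r) : False := by
  by_cases hx : h0 < e0 ∨ w1 ≤ w2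
  · exact no_move_main p r hw1 hw2 hw3 hh0 hhe heE hE ht0 hx b1 b2 b3 _ rfl M d1 d2 d3 H
  · push Not at hx
    obtain ⟨hx1, hx2⟩ := hx
    have he : e0 = h0 := le_antisymm hx1 hhe
    subst he
    have hG : G e0 e0 ≠ 0 := (G_pos e0 e0 hh0.le le_rfl (by linarith)).ne'
    refine no_move_main (w1 := w2) (w2 := w1) (w3 := w3) (E := E) (e0 := e0) (h0 := e0)
      (t0 := t0) (bar p) (bar r) hw2 hw1 hw3 hh0 le_rfl heE hE ht0 (Or.inr hx2.le) ?_ ?_ ?_
      (form e0 e0 t0 p r) (form_diag_bar e0 t0 hG p r).symm M2 ?_ ?_ ?_ ?_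
    · rw [A1_diag_bar]; exact b2
    · rw [A2_diag_bar]; exact b1
    · rw [A3_diag_bar]; exact b3
    · rw [A1_diag_bar]
      intro h
      have := d2 h
      unfold bt1
      rw [A2_diag_bar, A3_diag_bar]
      unfold bt2 at this
      simpa using this
    · rw [A2_diag_bar]
      intro h
      have := d1 h
      unfold bt2
      rw [A1_diag_bar, A3_diag_bar]
      unfold bt1 at this
      simpa using this
    · rw [A3_diag_bar]
      intro h
      have := d3 h
      unfold bt3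
      rw [A1_diag_bar, A2_diag_bar]
      unfold bt3 at this
      simp only [sub_self, sub_zero, add_zero, one_mul] at this ⊢
      rw [add_comm (A2 e0 e0 t0 r)]
      linarith
    · unfold Desc dsum bt1 bt2 bt3 at H ⊢
      simp only [A1_diag_bar, A2_diag_bar, A3_diag_bar]
      rcases H with H | ⟨z1, z2, z3, H⟩
      · left
        linarith
      · right
        refine ⟨z2, z1, z3, ?_⟩
        simp only [sub_self, sub_zero, add_zero, one_mul] at H ⊢
        refine lt_of_eq_of_lt ?_ H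
        ring

private theorem small_aux (a b : ℝ) (ha : a < 0) : ∃ M : ℝ, 0 < M ∧ a + M * (M * b) < 0 := by
  have hc : ContinuousAt (fun M : ℝ => a + M * (M * b)) 0 := by fun_prop
  have hev : ∀ᶠ M in 𝓝 (0 : ℝ), a + M * (M * b) < 0 := hc.eventually_lt_const (by simpa using ha)
  obtain ⟨M, hM, hM0⟩ := ((hev.filter_mono nhdsWithin_le_nhds).and
    (self_mem_nhdsWithin : Set.Ioi (0 : ℝ) ∈ 𝓝[>] (0 : ℝ))).exists
  exact ⟨M, hM0, hM⟩

/-- abstract version: the case analysis for the three coordinates -/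
private theorem coord_cases {c x D G : ℝ} (hc : 0 < c) (hx0 : 0 ≤ x)
    (hD : 0 < D) (hDG : D < G) (a1 a2 a3 b1 b2 b3 : ℝ) (hb1 : 0 ≤ b1) (hb2 : 0 ≤ b2)
    (hb3 : 0 ≤ b3) (hb : 0 < b1 ∨ 0 < b2 ∨ 0 < b3)
    (NM : ∀ w1 w2 w3 : ℝ, 0 ≤ w1 → 0 ≤ w2 → 0 ≤ w3 →
      (b1 = 0 → 0 < w1 * (c * b2 + b3) / D + w2 * (c * b2) / G - w3 * b3 / G) →
      (b2 = 0 → 0 < w2 * (c * b1 + (1 + x) * b3) / D + w1 * (c * b1) / G -
        w3 * ((1 - x) * b3) / G) →
      (b3 = 0 → 0 < w3 * (b1 + (1 + x) * b2) / D - w1 * b1 / G - w2 * ((1 - x) * b2) / G) →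
      (w1 * a1 * b1 + w2 * a2 * b2 + w3 * a3 * b3 < 0 ∨
        (w1 * b1 = 0 ∧ w2 * b2 = 0 ∧ w3 * b3 = 0 ∧
          w1 * a1 * (w1 * (c * b2 + b3) / D + w2 * (c * b2) / G - w3 * b3 / G) +
          w2 * a2 * (w2 * (c * b1 + (1 + x) * b3) / D + w1 * (c * b1) / G -
            w3 * ((1 - x) * b3) / G) +
          w3 * a3 * (w3 * (b1 + (1 + x) * b2) / D - w1 * b1 / G -
            w2 * ((1 - x) * b2) / G) < 0)) → False) :
    0 ≤ a1 ∧ 0 ≤ a2 ∧ 0 ≤ a3 := by
  have hG : 0 < G := hD.trans hDG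
  have inv : 1 / G < 1 / D := one_div_lt_one_div_of_lt hD hDG
  have hiG : 0 < 1 / G := by positivity
  have hiD : 0 < 1 / D := by positivity
  set g := 1 / G with hg
  set d := 1 / D with hd
  have NM' : ∀ w1 w2 w3 : ℝ, 0 ≤ w1 → 0 ≤ w2 → 0 ≤ w3 →
      (b1 = 0 → 0 < w1 * (c * b2 + b3) * d + w2 * (c * b2) * g - w3 * b3 * g) →
      (b2 = 0 → 0 < w2 * (c * b1 + (1 + x) * b3) * d + w1 * (c * b1) * g -
        w3 * ((1 - x) * b3) * g) →
      (b3 = 0 → 0 < w3 * (b1 + (1 + x) * b2) * d - w1 * b1 * g - w2 * ((1 - x) * b2) * g) →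
      (w1 * a1 * b1 + w2 * a2 * b2 + w3 * a3 * b3 < 0 ∨
        (w1 * b1 = 0 ∧ w2 * b2 = 0 ∧ w3 * b3 = 0 ∧
          w1 * a1 * (w1 * (c * b2 + b3) * d + w2 * (c * b2) * g - w3 * b3 * g) +
          w2 * a2 * (w2 * (c * b1 + (1 + x) * b3) * d + w1 * (c * b1) * g -
            w3 * ((1 - x) * b3) * g) +
          w3 * a3 * (w3 * (b1 + (1 + x) * b2) * d - w1 * b1 * g -
            w2 * ((1 - x) * b2) * g) < 0)) → False := by
    have e1 : ∀ y : ℝ, y / G = y * g := fun y => by rw [hg]; ring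
    have e2 : ∀ y : ℝ, y / D = y * d := fun y => by rw [hd]; ring
    simpa only [e1, e2] using NM
  clear NM
  clear_value g d
  refine ⟨?_, ?_, ?_⟩
  · by_contra ha
    push Not at ha
    rcases hb1.eq_or_lt with h1 | h1
    · -- b1 = 0
      subst h1
      rcases hb2.eq_or_lt with h2 | h2
      · subst h2
        have h3 : 0 < b3 := by
          rcases hb with h | h | h
          · exact absurd h (lt_irrefl _)
          · exact absurd h (lt_irrefl _)
          · exact h
        obtain ⟨M, hM0, hM⟩ := small_aux (a1 * (b3 * d)) (a2 * ((1 + x) * b3 * d))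
          (mul_neg_of_neg_of_pos ha (by positivity))
        refine NM' 1 M 0 zero_le_one hM0.le le_rfl (fun _ => ?_) (fun _ => ?_)
          (fun h => absurd h h3.ne') (Or.inr ⟨by ring, by ring, by ring, ?_⟩)
        · have : 0 < b3 * d := by positivity
          linarith
        · have : 0 < M * ((1 + x) * b3) * d := by positivity
          linarith
        · linarith
      · rcases hb3.eq_or_lt with h3 | h3
        · subst h3
          obtain ⟨M, hM0, hM⟩ := small_aux (a1 * (c * b2 * d)) (a3 * ((1 + x) * b2 * d))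
            (mul_neg_of_neg_of_pos ha (by positivity))
          refine NM' 1 0 M zero_le_one le_rfl hM0.le (fun _ => ?_)
            (fun h => absurd h h2.ne') (fun _ => ?_) (Or.inr ⟨by ring, by ring, by ring, ?_⟩)
          · have : 0 < c * b2 * d := by positivity
            linarith
          · have : 0 < M * ((1 + x) * b2) * d := by positivity
            linarith
          · linarith
        · refine NM' 1 0 0 zero_le_one le_rfl le_rfl (fun _ => ?_)
            (fun h => absurd h h2.ne') (fun h => absurd h h3.ne')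
            (Or.inr ⟨by ring, by ring, by ring, ?_⟩)
          · have : 0 < (c * b2 + b3) * d := by positivity
            linarith
          · have : 0 < (c * b2 + b3) * d := by positivity
            have := mul_neg_of_neg_of_pos ha this
            linarith
    · -- b1 > 0
      have hneg := mul_neg_of_neg_of_pos ha h1
      refine NM' 1 (if b2 = 0 then 1 else 0) (if b3 = 0 then 1 else 0) zero_le_one
        (by split_ifs <;> norm_num) (by split_ifs <;> norm_num) (fun h => absurd h h1.ne')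
        (fun h => ?_) (fun h => ?_) (Or.inl ?_)
      · rw [if_pos h]
        have q1 : 0 < (c * b1 + (1 + x) * b3) * d := by positivity
        have q2 : 0 < c * b1 * g := by positivity
        split_ifs with h3
        · rw [h3] at q1 ⊢
          linarith
        · linarith
      · rw [if_pos h]
        have q1 : 0 < b1 * (d - g) := mul_pos h1 (by linarith)
        have q2 : 0 ≤ (1 + x) * b2 * d := by positivity
        split_ifs with h2
        · rw [h2]
          linarith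
        · linarith
      · have q2 : (if b2 = 0 then (1 : ℝ) else 0) * a2 * b2 = 0 := by
          split_ifs with h
          · rw [h]; ring
          · ring
        have q3 : (if b3 = 0 then (1 : ℝ) else 0) * a3 * b3 = 0 := by
          split_ifs with h
          · rw [h]; ring
          · ring
        rw [q2, q3]
        linarith
  · by_contra ha
    push Not at ha
    rcases hb2.eq_or_lt with h2 | h2
    · -- b2 = 0
      subst h2
      rcases hb1.eq_or_lt with h1 | h1
      · subst h1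
        have h3 : 0 < b3 := by
          rcases hb with h | h | h
          · exact absurd h (lt_irrefl _)
          · exact absurd h (lt_irrefl _)
          · exact h
        obtain ⟨M, hM0, hM⟩ := small_aux (a2 * ((1 + x) * b3 * d)) (a1 * (b3 * d))
          (mul_neg_of_neg_of_pos ha (by positivity))
        refine NM' M 1 0 hM0.le zero_le_one le_rfl (fun _ => ?_) (fun _ => ?_)
          (fun h => absurd h h3.ne') (Or.inr ⟨by ring, by ring, by ring, ?_⟩)
        · have : 0 < M * b3 * d := by positivity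
          linarith
        · have : 0 < (1 + x) * b3 * d := by positivity
          linarith
        · linarith
      · rcases hb3.eq_or_lt with h3 | h3
        · subst h3
          obtain ⟨M, hM0, hM⟩ := small_aux (a2 * (c * b1 * d)) (a3 * (b1 * d))
            (mul_neg_of_neg_of_pos ha (by positivity))
          refine NM' 0 1 M le_rfl zero_le_one hM0.le (fun h => absurd h h1.ne') (fun _ => ?_)
            (fun _ => ?_) (Or.inr ⟨by ring, by ring, by ring, ?_⟩)
          · have : 0 < c * b1 * d := by positivity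
            linarith
          · have : 0 < M * b1 * d := by positivity
            linarith
          · linarith
        · refine NM' 0 1 0 le_rfl zero_le_one le_rfl (fun h => absurd h h1.ne')
            (fun _ => ?_) (fun h => absurd h h3.ne')
            (Or.inr ⟨by ring, by ring, by ring, ?_⟩)
          · have : 0 < (c * b1 + (1 + x) * b3) * d := by positivity
            linarith
          · have : 0 < (c * b1 + (1 + x) * b3) * d := by positivity
            have := mul_neg_of_neg_of_pos ha this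
            linarith
    · -- b2 > 0
      have hneg := mul_neg_of_neg_of_pos ha h2
      refine NM' (if b1 = 0 then 1 else 0) 1 (if b3 = 0 then 1 else 0)
        (by split_ifs <;> norm_num) zero_le_one (by split_ifs <;> norm_num)
        (fun h => ?_) (fun h => absurd h h2.ne') (fun h => ?_) (Or.inl ?_)
      · rw [if_pos h]
        have q1 : 0 < (c * b2 + b3) * d := by positivity
        have q2 : 0 < c * b2 * g := by positivity
        split_ifs with h3
        · rw [h3] at q1 ⊢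
          linarith
        · linarith
      · rw [if_pos h]
        have q1 : 0 < b2 * (d - g) := mul_pos h2 (by linarith)
        have q2 : 0 ≤ b1 * d := by positivity
        have q3 : 0 ≤ x * b2 * d := by positivity
        have q4 : 0 ≤ x * b2 * g := by positivity
        split_ifs with h1
        · rw [h1]
          linarith
        · linarith
      · have q2 : (if b1 = 0 then (1 : ℝ) else 0) * a1 * b1 = 0 := by
          split_ifs with h
          · rw [h]; ring
          · ring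
        have q3 : (if b3 = 0 then (1 : ℝ) else 0) * a3 * b3 = 0 := by
          split_ifs with h
          · rw [h]; ring
          · ring
        rw [q2, q3]
        linarith
  · by_contra ha
    push Not at ha
    rcases hb3.eq_or_lt with h3 | h3
    · -- b3 = 0
      subst h3
      rcases hb1.eq_or_lt with h1 | h1
      · subst h1
        have h2 : 0 < b2 := by
          rcases hb with h | h | h
          · exact absurd h (lt_irrefl _)
          · exact h
          · exact absurd h (lt_irrefl _)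
        obtain ⟨M, hM0, hM⟩ := small_aux (a3 * ((1 + x) * b2 * d)) (a1 * (c * b2 * d))
          (mul_neg_of_neg_of_pos ha (by positivity))
        refine NM' M 0 1 hM0.le le_rfl zero_le_one (fun _ => ?_) (fun h => absurd h h2.ne')
          (fun _ => ?_) (Or.inr ⟨by ring, by ring, by ring, ?_⟩)
        · have : 0 < M * (c * b2) * d := by positivity
          linarith
        · have : 0 < (1 + x) * b2 * d := by positivity
          linarith
        · linarith
      · rcases hb2.eq_or_lt with h2 | h2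
        · subst h2
          obtain ⟨M, hM0, hM⟩ := small_aux (a3 * (b1 * d)) (a2 * (c * b1 * d))
            (mul_neg_of_neg_of_pos ha (by positivity))
          refine NM' 0 M 1 le_rfl hM0.le zero_le_one (fun h => absurd h h1.ne') (fun _ => ?_)
            (fun _ => ?_) (Or.inr ⟨by ring, by ring, by ring, ?_⟩)
          · have : 0 < M * (c * b1) * d := by positivity
            linarith
          · have : 0 < b1 * d := by positivity
            linarith
          · linarith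
        · refine NM' 0 0 1 le_rfl le_rfl zero_le_one (fun h => absurd h h1.ne')
            (fun h => absurd h h2.ne') (fun _ => ?_)
            (Or.inr ⟨by ring, by ring, by ring, ?_⟩)
          · have : 0 < (b1 + (1 + x) * b2) * d := by positivity
            linarith
          · have : 0 < (b1 + (1 + x) * b2) * d := by positivity
            have := mul_neg_of_neg_of_pos ha this
            linarith
    · -- b3 > 0
      have hneg := mul_neg_of_neg_of_pos ha h3
      refine NM' (if b1 = 0 then 1 else 0) (if b2 = 0 then 1 else 0) 1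
        (by split_ifs <;> norm_num) (by split_ifs <;> norm_num) zero_le_one
        (fun h => ?_) (fun h => ?_) (fun h => absurd h h3.ne') (Or.inl ?_)
      · rw [if_pos h]
        have q1 : 0 < b3 * (d - g) := mul_pos h3 (by linarith)
        have q2 : 0 ≤ c * b2 * d := by positivity
        split_ifs with h2
        · rw [h2]
          linarith
        · linarith
      · rw [if_pos h]
        have q1 : 0 < b3 * (d - g) := mul_pos h3 (by linarith)
        have q2 : 0 ≤ c * b1 * d := by positivity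
        have q3 : 0 ≤ x * b3 * d := by positivity
        have q4 : 0 ≤ x * b3 * g := by positivity
        split_ifs with h1
        · rw [h1]
          linarith
        · linarith
      · have q2 : (if b1 = 0 then (1 : ℝ) else 0) * a1 * b1 = 0 := by
          split_ifs with h
          · rw [h]; ring
          · ring
        have q3 : (if b2 = 0 then (1 : ℝ) else 0) * a2 * b2 = 0 := by
          split_ifs with h
          · rw [h]; ring
          · ring
        rw [q2, q3]
        linarith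

/-- the linear relation between the three coordinates and the third weight -/
theorem coord_identity (e h t : ℝ) (p : Fin 3 → ℝ) :
    (cos h - (e - h) * sin h) * A1 e h t p + cos h * A2 e h t p + A3 e h t p =
      4 * D e h * G e h * t * p 2 := by
  have hE : cos h ^ 2 + sin h ^ 2 = 1 := by rw [add_comm]; exact sin_sq_add_cos_sq h
  unfold A1 A2 A3 D G
  linear_combination (4 * t * p 2 - (e - h) * exp h * (p 0 - p 1)) * hE

/-- at a minimiser with `h > 0` the other point has nonnegative coordinates -/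
theorem coords_nonneg {E e0 h0 t0 : ℝ} (p r : Fin 3 → ℝ) (hh0 : 0 < h0) (hhe : h0 ≤ e0)
    (heE : e0 ≤ E) (hE : E < π / 4) (ht0 : 0 < t0) (hr : 0 < r 2)
    (b1 : 0 ≤ A1 e0 h0 t0 r) (b2 : 0 ≤ A2 e0 h0 t0 r) (b3 : 0 ≤ A3 e0 h0 t0 r)
    (M : ∀ e h t, 0 < h → h ≤ e → e ≤ E → 0 < t → 0 ≤ A1 e h t r → 0 ≤ A2 e h t r →
      0 ≤ A3 e h t r → form e0 h0 t0 p r ≤ form e h t p r)
    (M2 : ∀ e h t, 0 < h → h ≤ e → e ≤ E → 0 < t → 0 ≤ A1 e h t (bar r) →
      0 ≤ A2 e h t (bar r) → 0 ≤ A3 e h t (bar r) →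
      form e0 h0 t0 p r ≤ form e h t (bar p) (bar r)) :
    0 ≤ A1 e0 h0 t0 p ∧ 0 ≤ A2 e0 h0 t0 p ∧ 0 ≤ A3 e0 h0 t0 p := by
  have hpi := pi_pos
  have hp4 := one_le_pi4
  norm_num at hp4
  have hc : 0 < cos h0 := cos_pos_of_mem_Ioo ⟨by linarith, by linarith⟩
  have hs : 0 < sin h0 := sin_pos_of_pos_of_lt_pi hh0 (by linarith)
  have hD := D_pos e0 h0 hh0.le hhe (by linarith)
  have hG := G_pos e0 h0 hh0.le hhe (by linarith)
  have hDG : D e0 h0 < G e0 h0 := by
    unfold D G
    nlinarith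
  refine coord_cases (c := cos h0) (x := e0 - h0) (D := D e0 h0) (G := G e0 h0) hc
    (by linarith) hD hDG _ _ _ (A1 e0 h0 t0 r) (A2 e0 h0 t0 r)
    (A3 e0 h0 t0 r) b1 b2 b3 ?_ ?_
  · by_contra hcon
    push Not at hcon
    obtain ⟨c1, c2, c3⟩ := hcon
    have e1 : A1 e0 h0 t0 r = 0 := le_antisymm c1 b1
    have e2 : A2 e0 h0 t0 r = 0 := le_antisymm c2 b2
    have e3 : A3 e0 h0 t0 r = 0 := le_antisymm c3 b3
    have := coord_identity e0 h0 t0 r
    rw [e1, e2, e3] at this
    have h4 : 0 < 4 * D e0 h0 * G e0 h0 * t0 * r 2 := by positivity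
    linarith
  · intro w1 w2 w3 hw1 hw2 hw3 d1 d2 d3 H
    exact no_move (w1 := w1) (w2 := w2) (w3 := w3) p r hw1 hw2 hw3 hh0 hhe heE hE ht0 b1 b2 b3
      M M2 d1 d2 d3 H

end Pool.Agent.Helper92.S2
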