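import Mathlib
import Pool.Agent.Helper92.S2.Basic
import Pool.Agent.Helper92.S2.Local

/-!
# The exchange lemma
-/

namespace Pool.Agent.Helper92.S2

open Real

/-- explicit form of the forms with `h = 0` -/
theorem form_zero (e t : ℝ) (ht : t ≠ 0) (p r : Fin 3 → ℝ) :
    form e 0 t p r = (1 - exp (-e)) * (p 1 * r 2 + p 2 * r 1) + exp (-e) * (t * p 2 * r 2 +
      (p 0 * r 1 + p 1 * r 0 - 2 * e * p 1 * r 1) / (4 * t)) := by
  unfold form X G D
  simp only [cos_zero, sin_zero, exp_zero, sub_zero, mul_zero, add_zero, mul_one, div_one,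
    one_mul]
  field_simp
  ring

theorem A1_zero (e t : ℝ) (p : Fin 3 → ℝ) : A1 e 0 t p = 4 * t * p 2 - 2 * p 1 := by
  unfold A1
  simp only [cos_zero, sin_zero, exp_zero, sub_zero, mul_zero, add_zero, mul_one]
  ring

private theorem step_ineq {δ t p1 p2 r1 r2 : ℝ} (hδ : 0 ≤ δ) (ht : 0 < t) (hp2 : 0 ≤ p2)
    (hr2 : 0 ≤ r2) (ha : 2 * t * exp δ * p2 ≤ p1) (hb : r1 ≤ 2 * t * r2) :
    -(exp δ - 1) * (p1 * r2 + p2 * r1) + t * (exp δ ^ 2 - 1) * (p2 * r2) +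
      δ * (p1 * r1) / (2 * t) ≤ 0 := by
  have h1 : 0 ≤ exp δ - 1 - δ := by linarith [add_one_le_exp δ]
  have h2 : 0 ≤ δ * exp δ - exp δ + 1 := by
    have := one_sub_le_exp_neg δ
    have h3 := mul_le_mul_of_nonneg_right this (exp_pos δ).le
    rw [← exp_add, neg_add_cancel, exp_zero] at h3
    linarith
  have h3 : 0 ≤ exp δ ^ 2 - 1 - 2 * δ * exp δ := by
    have := self_le_sinh_iff.mpr hδ
    rw [sinh_eq] at this
    have h4 := mul_le_mul_of_nonneg_right this (exp_pos δ).le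
    have h5 : exp (-δ) * exp δ = 1 := by rw [← exp_add, neg_add_cancel, exp_zero]
    nlinarith
  have ha' : 0 ≤ p1 - 2 * t * exp δ * p2 := by linarith
  have hb' : 0 ≤ 2 * t * r2 - r1 := by linarith
  have key : -(exp δ - 1) * (p1 * r2 + p2 * r1) + t * (exp δ ^ 2 - 1) * (p2 * r2) +
      δ * (p1 * r1) / (2 * t) = -((exp δ - 1 - δ) * ((p1 - 2 * t * exp δ * p2) * r2)) -
      t * (p2 * r2) * (exp δ ^ 2 - 1 - 2 * δ * exp δ) -
      p2 * (2 * t * r2 - r1) * (δ * exp δ - exp δ + 1) -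
      δ * ((p1 - 2 * t * exp δ * p2) * (2 * t * r2 - r1)) / (2 * t) := by
    field_simp
    ring
  rw [key]
  have q1 : 0 ≤ (exp δ - 1 - δ) * ((p1 - 2 * t * exp δ * p2) * r2) := by positivity
  have q2 : 0 ≤ t * (p2 * r2) * (exp δ ^ 2 - 1 - 2 * δ * exp δ) := by positivity
  have q3 : 0 ≤ p2 * (2 * t * r2 - r1) * (δ * exp δ - exp δ + 1) := by positivity
  have q4 : 0 ≤ δ * ((p1 - 2 * t * exp δ * p2) * (2 * t * r2 - r1)) / (2 * t) := by positivity
  linarith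

/-- the exchange step for forms with `h = 0` -/
private theorem exchange_H {E e t : ℝ} (p r : Fin 3 → ℝ) (hp : ∀ i, 0 < p i)
    (hr : ∀ i, 0 < r i) (he0 : 0 ≤ e) (heE : e ≤ E) (ht : 0 < t) (hv : 0 ≤ A1 e 0 t r) :
    ∃ e' h' t', Val E e' h' t' r ∧ Val E e' h' t' p ∧ form e' h' t' p r ≤ form e 0 t p r := by
  rcases le_or_gt 0 (A1 e 0 t p) with h1 | h1
  · exact ⟨e, 0, t, ⟨le_rfl, he0, heE, ht, Or.inr (Or.inl ⟨rfl, hv⟩)⟩,
      ⟨le_rfl, he0, heE, ht, Or.inr (Or.inl ⟨rfl, h1⟩)⟩, le_rfl⟩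
  rw [A1_zero] at h1 hv
  have hp1 := hp 1
  have hp2 := hp 2
  have hr2 := hr 2
  have hq : 0 < 2 * t * p 2 := by positivity
  set L := Real.log (p 1 / (2 * t * p 2)) with hL
  have hratio : 1 < p 1 / (2 * t * p 2) := by
    rw [one_lt_div hq]
    linarith
  have hL0 : 0 < L := Real.log_pos hratio
  have hexpL : exp L = p 1 / (2 * t * p 2) := Real.exp_log (by positivity)
  -- general step
  have step : ∀ δ : ℝ, 0 ≤ δ → δ ≤ L → form (e - δ) 0 (t * exp δ) p r ≤ form e 0 t p r := by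
    intro δ h0 hδL
    have hE1 : 0 < exp δ := exp_pos δ
    rw [form_zero e t ht.ne', form_zero (e - δ) (t * exp δ) (by positivity)]
    have e1 : exp (-(e - δ)) = exp (-e) * exp δ := by rw [← exp_add]; ring_nf
    rw [e1]
    have ha : 2 * t * exp δ * p 2 ≤ p 1 := by
      have h2 : exp δ ≤ p 1 / (2 * t * p 2) := by
        rw [← hexpL]
        exact exp_le_exp.mpr hδL
      rw [le_div_iff₀ hq] at h2
      linarith
    have hb : r 1 ≤ 2 * t * r 2 := by linarith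
    have := step_ineq h0 ht hp2.le hr2.le ha hb
    have hqe : 0 < exp (-e) := exp_pos _
    have key : (1 - exp (-e) * exp δ) * (p 1 * r 2 + p 2 * r 1) + exp (-e) * exp δ *
        (t * exp δ * p 2 * r 2 + (p 0 * r 1 + p 1 * r 0 - 2 * (e - δ) * p 1 * r 1) /
          (4 * (t * exp δ))) = (1 - exp (-e)) * (p 1 * r 2 + p 2 * r 1) + exp (-e) *
        (t * p 2 * r 2 + (p 0 * r 1 + p 1 * r 0 - 2 * e * p 1 * r 1) / (4 * t)) +
        exp (-e) * (-(exp δ - 1) * (p 1 * r 2 + p 2 * r 1) +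
          t * (exp δ ^ 2 - 1) * (p 2 * r 2) + δ * (p 1 * r 1) / (2 * t)) := by
      field_simp
      ring
    rw [key]
    have := mul_nonpos_of_nonneg_of_nonpos hqe.le this
    linarith
  rcases le_total e L with h2 | h2
  · refine ⟨0, 0, t * exp e, ⟨le_rfl, le_rfl, he0.trans heE, by positivity, Or.inl ⟨rfl, rfl⟩⟩,
      ⟨le_rfl, le_rfl, he0.trans heE, by positivity, Or.inl ⟨rfl, rfl⟩⟩, ?_⟩
    have := step e he0 h2
    rwa [sub_self] at this
  · refine ⟨e - L, 0, t * exp L, ⟨le_rfl, by linarith, by linarith, by positivity,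
      Or.inr (Or.inl ⟨rfl, ?_⟩)⟩, ⟨le_rfl, by linarith, by linarith, by positivity,
      Or.inr (Or.inl ⟨rfl, ?_⟩)⟩, step L hL0.le le_rfl⟩
    · rw [A1_zero]
      have h3 : 1 ≤ exp L := one_le_exp hL0.le
      have h4 : t * r 2 ≤ t * exp L * r 2 := by
        have := mul_le_mul_of_nonneg_left h3 (mul_pos ht hr2).le
        linarith
      linarith
    · rw [A1_zero, hexpL]
      have : t * (p 1 / (2 * t * p 2)) * p 2 = p 1 / 2 := by
        field_simp
      linarith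

/-- the compact set of parameters -/
private def KK (E a b : ℝ) (r : Fin 3 → ℝ) : Set (ℝ × ℝ × ℝ) :=
  {θ | 0 ≤ θ.2.1 ∧ θ.2.1 ≤ θ.1 ∧ θ.1 ≤ E ∧ a ≤ θ.2.2 ∧ θ.2.2 ≤ b ∧
    0 ≤ A1 θ.1 θ.2.1 θ.2.2 r ∧ 0 ≤ A2 θ.1 θ.2.1 θ.2.2 r ∧ 0 ≤ A3 θ.1 θ.2.1 θ.2.2 r}

private theorem KK_compact (E a b : ℝ) (r : Fin 3 → ℝ) : IsCompact (KK E a b r) := by
  have hcl : IsClosed (KK E a b r) := by
    have c1 : Continuous (fun θ : ℝ × ℝ × ℝ => A1 θ.1 θ.2.1 θ.2.2 r) := by
      unfold A1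
      fun_prop
    have c2 : Continuous (fun θ : ℝ × ℝ × ℝ => A2 θ.1 θ.2.1 θ.2.2 r) := by
      unfold A2
      fun_prop
    have c3 : Continuous (fun θ : ℝ × ℝ × ℝ => A3 θ.1 θ.2.1 θ.2.2 r) := by
      unfold A3
      fun_prop
    have f1 : Continuous (fun θ : ℝ × ℝ × ℝ => θ.1) := by fun_prop
    have f2 : Continuous (fun θ : ℝ × ℝ × ℝ => θ.2.1) := by fun_prop
    have f3 : Continuous (fun θ : ℝ × ℝ × ℝ => θ.2.2) := by fun_prop
    have g0 : Continuous (fun _ : ℝ × ℝ × ℝ => (0 : ℝ)) := continuous_const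
    have gE : Continuous (fun _ : ℝ × ℝ × ℝ => E) := continuous_const
    have ga : Continuous (fun _ : ℝ × ℝ × ℝ => a) := continuous_const
    have gb : Continuous (fun _ : ℝ × ℝ × ℝ => b) := continuous_const
    exact (isClosed_le g0 f2).inter ((isClosed_le f2 f1).inter ((isClosed_le f1 gE).inter
      ((isClosed_le ga f3).inter ((isClosed_le f3 gb).inter ((isClosed_le g0 c1).inter
        ((isClosed_le g0 c2).inter (isClosed_le g0 c3)))))))
  refine IsCompact.of_isClosed_subset (isCompact_Icc (a := ((0 : ℝ), (0 : ℝ), a))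
    (b := (E, E, b))) hcl ?_
  rintro ⟨e, h, t⟩ ⟨h1, h2, h3, h4, h5, -⟩
  simp only at h1 h2 h3 h4 h5
  exact ⟨⟨h1.trans h2, h1, h4⟩, ⟨h3, h2.trans h3, h5⟩⟩

private theorem form_contOn {E a b : ℝ} (hE : E < π / 4) (ha : 0 < a) (p r s : Fin 3 → ℝ) :
    ContinuousOn (fun θ : ℝ × ℝ × ℝ => form θ.1 θ.2.1 θ.2.2 p r) (KK E a b s) := by
  have hG : ∀ θ ∈ KK E a b s, G θ.1 θ.2.1 ≠ 0 := by
    rintro ⟨e, h, t⟩ ⟨h1, h2, h3, -⟩
    simp only at h1 h2 h3
    exact (G_pos e h h1 h2 (by linarith)).ne'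
  have ht : ∀ θ ∈ KK E a b s, 8 * θ.2.2 ≠ 0 := by
    rintro ⟨e, h, t⟩ ⟨-, -, -, h4, -⟩
    simp only at h4 ⊢
    have : 0 < t := lt_of_lt_of_le ha h4
    positivity
  have cG : ContinuousOn (fun θ : ℝ × ℝ × ℝ => G θ.1 θ.2.1) (KK E a b s) := by
    unfold G
    fun_prop
  have cD : ContinuousOn (fun θ : ℝ × ℝ × ℝ => D θ.1 θ.2.1) (KK E a b s) := by
    unfold D
    fun_prop
  have cX : ∀ q : Fin 3 → ℝ, ContinuousOn (fun θ : ℝ × ℝ × ℝ => X θ.2.1 q) (KK E a b s) := by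
    intro q
    unfold X
    fun_prop
  have cXp := cX p
  have cXr := cX r
  have c1 : ContinuousOn (fun θ : ℝ × ℝ × ℝ => exp (-θ.1) / G θ.1 θ.2.1) (KK E a b s) :=
    ContinuousOn.div (by fun_prop) cG hG
  have c2 : ContinuousOn (fun θ : ℝ × ℝ × ℝ => 1 / (8 * θ.2.2)) (KK E a b s) :=
    ContinuousOn.div (by fun_prop) (by fun_prop) ht
  unfold form
  fun_prop

private theorem bounds {E e h t : ℝ} (hE : E < π / 4) (r : Fin 3 → ℝ) (hr : ∀ i, 0 < r i)
    (h0 : 0 ≤ h) (h1 : h ≤ e) (h2 : e ≤ E) (b1 : 0 ≤ A1 e h t r) (b2 : 0 ≤ A2 e h t r)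
    (b3 : 0 ≤ A3 e h t r) : (r 0 + r 1) / (32 * r 2) ≤ t ∧
      t ≤ (2 + exp E) * (r 0 + r 1) / (4 * r 2) := by
  have hr0 := hr 0
  have hr1 := hr 1
  have hr2 := hr 2
  have hp4 := one_le_pi4
  norm_num at hp4
  have hpi := pi_pos
  have hc0 : 0 < cos h := cos_pos_of_mem_Ioo ⟨by linarith, by linarith⟩
  have hs0 : 0 ≤ sin h := sin_nonneg_of_nonneg_of_le_pi h0 (by linarith)
  have hc1 : cos h ≤ 1 := cos_le_one h
  have hs1 : sin h ≤ 1 := sin_le_one h
  have hsc : sin h ≤ cos h := sin_le_cos h h0 (by linarith)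
  have hcs : cos h ^ 2 + sin h ^ 2 = 1 := by rw [add_comm]; exact sin_sq_add_cos_sq h
  have hch : 1 / 2 ≤ cos h := by nlinarith
  have hx0 : 0 ≤ e - h := by linarith
  have hx1 : e - h ≤ 1 := by linarith
  unfold A1 at b1
  unfold A2 at b2
  unfold A3 at b3
  generalize hx : e - h = x at *
  have hK : exp h ≤ exp E := exp_le_exp.mpr (by linarith)
  have hK0 : 0 < exp h := exp_pos h
  set c := cos h
  set s := sin h
  have hxs : 0 ≤ x * s := by positivity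
  have htnn : 0 ≤ t := by
    by_contra hneg
    push Not at hneg
    have q1 : 0 ≤ ((1 + x) * c + (1 - x) * s) := by
      have : 0 ≤ (1 - x) * s := mul_nonneg (by linarith) hs0
      positivity
    have q2 := mul_nonneg q1 b1
    have q3 := mul_nonneg (by positivity : 0 ≤ c + s) b2
    have q4 : 0 < ((1 + x) * c + (1 - x) * s) + (c + s) * (1 - x) := by
      have h5 : 0 ≤ (1 - x) * s := mul_nonneg (by linarith) hs0
      have h6 : 0 ≤ (c + s) * (1 - x) := mul_nonneg (by positivity) (by linarith)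
      positivity
    have q5 : 0 < (((1 + x) * c + (1 - x) * s) + (c + s) * (1 - x)) * (r 0 + r 1) := by
      positivity
    have q6 : 0 ≤ ((1 + x) * c + (1 - x) * s) * (c - x * s) + (c + s) * c := by
      have h7 : 0 ≤ c - x * s := by nlinarith
      positivity
    have q7 : 0 ≤ (((1 + x) * c + (1 - x) * s) * (c - x * s) + (c + s) * c) *
      (4 * (-t) * r 2) := mul_nonneg q6 (by nlinarith)
    nlinarith
  constructor
  · rw [div_le_iff₀ (by positivity)]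
    have q1 : 0 ≤ ((1 + x) * c + (1 - x) * s) := by
      have : 0 ≤ (1 - x) * s := mul_nonneg (by linarith) hs0
      positivity
    have q2 := mul_nonneg q1 b1
    have q3 := mul_nonneg (by positivity : 0 ≤ c + s) b2
    have q4 : 1 / 2 ≤ ((1 + x) * c + (1 - x) * s) + (c + s) * (1 - x) := by
      have h5 : 0 ≤ (1 - x) * s := mul_nonneg (by linarith) hs0
      have h6 : 0 ≤ (c + s) * (1 - x) := mul_nonneg (by positivity) (by linarith)
      have h7 : 0 ≤ x * c := by positivity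
      linarith
    have q5 : 1 / 2 * (r 0 + r 1) ≤
        (((1 + x) * c + (1 - x) * s) + (c + s) * (1 - x)) * (r 0 + r 1) :=
      mul_le_mul_of_nonneg_right q4 (by positivity)
    have q6 : ((1 + x) * c + (1 - x) * s) * (c - x * s) + (c + s) * c ≤ 4 := by
      have h8 : (1 + x) * c + (1 - x) * s ≤ 2 := by
        have h9 : (1 + x) * c ≤ 1 + x := by nlinarith
        have h10 : (1 - x) * s ≤ 1 - x := by nlinarith
        linarith
      have h11 : ((1 + x) * c + (1 - x) * s) * (c - x * s) ≤ 2 := by nlinarith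
      have h12 : (c + s) * c ≤ 2 := by nlinarith
      linarith
    have q7 : (((1 + x) * c + (1 - x) * s) * (c - x * s) + (c + s) * c) *
      (4 * t * r 2) ≤ 4 * (4 * t * r 2) := mul_le_mul_of_nonneg_right q6 (by positivity)
    nlinarith
  · rw [le_div_iff₀ (by positivity)]
    have q1 : ((2 - x) * c - x * s) * (r 0 + r 1) ≤ 2 * (r 0 + r 1) := by
      refine mul_le_mul_of_nonneg_right ?_ (by positivity)
      nlinarith
    have q2 : x * exp h * (r 0 - r 1) ≤ exp E * (r 0 + r 1) := by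
      have h5 : x * exp h ≤ exp E := by nlinarith
      have h6 : 0 ≤ x * exp h := by positivity
      calc x * exp h * (r 0 - r 1) ≤ x * exp h * (r 0 + r 1) :=
            mul_le_mul_of_nonneg_left (by linarith) h6
        _ ≤ exp E * (r 0 + r 1) := mul_le_mul_of_nonneg_right h5 (by positivity)
    nlinarith

private theorem bar_bar' (p : Fin 3 → ℝ) : bar (bar p) = p := by
  funext i
  fin_cases i <;> rfl

private theorem bar_pos' {p : Fin 3 → ℝ} (h : ∀ i, 0 < p i) : ∀ i, 0 < bar p i := by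
  intro i
  fin_cases i
  · exact h 1
  · exact h 0
  · exact h 2

/-- full validity -/
private def Full (E e h t : ℝ) (r : Fin 3 → ℝ) : Prop :=
  0 ≤ h ∧ h ≤ e ∧ e ≤ E ∧ 0 < t ∧ 0 ≤ A1 e h t r ∧ 0 ≤ A2 e h t r ∧ 0 ≤ A3 e h t r

/-- existence of a minimiser among the full forms -/
private theorem exists_min {E : ℝ} (hE : E < π / 4) (p r : Fin 3 → ℝ)
    (hr : ∀ i, 0 < r i) (hne : ∃ e h t, Full E e h t r) :
    ∃ e0 h0 t0, Full E e0 h0 t0 r ∧ ∀ e h t, Full E e h t r →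
      form e0 h0 t0 p r ≤ form e h t p r := by
  set a := (r 0 + r 1) / (32 * r 2) with ha
  set b := (2 + exp E) * (r 0 + r 1) / (4 * r 2) with hb
  have ha0 : 0 < a := by
    have := hr 0
    have := hr 1
    have := hr 2
    positivity
  have hmem : ∀ e h t, Full E e h t r → (e, h, t) ∈ KK E a b r := by
    rintro e h t ⟨h1, h2, h3, -, h5, h6, h7⟩
    obtain ⟨h8, h9⟩ := bounds hE r hr h1 h2 h3 h5 h6 h7
    exact ⟨h1, h2, h3, h8, h9, h5, h6, h7⟩
  have hne' : (KK E a b r).Nonempty := by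
    obtain ⟨e, h, t, hf⟩ := hne
    exact ⟨_, hmem e h t hf⟩
  obtain ⟨⟨e0, h0, t0⟩, hm, hmin⟩ := (KK_compact E a b r).exists_isMinOn hne'
    (form_contOn (E := E) (a := a) (b := b) hE ha0 p r r)
  obtain ⟨h1, h2, h3, h4, h5, h6, h7, h8⟩ := hm
  simp only at h1 h2 h3 h4 h5 h6 h7 h8
  refine ⟨e0, h0, t0, ⟨h1, h2, h3, lt_of_lt_of_le ha0 h4, h6, h7, h8⟩, ?_⟩
  intro e h t hf
  exact hmin (hmem e h t hf)

/-- the exchange lemma from a global minimiser -/
private theorem exchange_min {E : ℝ} (hE : E < π / 4) (p r : Fin 3 → ℝ) (hp : ∀ i, 0 < p i)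
    (hr : ∀ i, 0 < r i) {e0 h0 t0 : ℝ} (hf : Full E e0 h0 t0 r)
    (M : ∀ e h t, Full E e h t r → form e0 h0 t0 p r ≤ form e h t p r)
    (M2 : ∀ e h t, Full E e h t (bar r) → form e0 h0 t0 p r ≤ form e h t (bar p) (bar r)) :
    ∃ e' h' t', Val E e' h' t' r ∧ Val E e' h' t' p ∧
      form e' h' t' p r ≤ form e0 h0 t0 p r := by
  obtain ⟨h1, h2, h3, h4, h5, h6, h7⟩ := hf
  rcases h1.eq_or_lt with h8 | h8
  · subst h8
    exact exchange_H p r hp hr h2 h3 h4 h5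
  · obtain ⟨a1, a2, a3⟩ := coords_nonneg p r h8 h2 h3 hE h4 (hr 2) h5 h6 h7
      (fun e h t q1 q2 q3 q4 q5 q6 q7 => M e h t ⟨q1.le, q2, q3, q4, q5, q6, q7⟩)
      (fun e h t q1 q2 q3 q4 q5 q6 q7 => M2 e h t ⟨q1.le, q2, q3, q4, q5, q6, q7⟩)
    exact ⟨e0, h0, t0, ⟨h1, h2, h3, h4, Or.inr (Or.inr ⟨h5, h6, h7⟩)⟩,
      ⟨h1, h2, h3, h4, Or.inr (Or.inr ⟨a1, a2, a3⟩)⟩, le_rfl⟩

/-- the exchange lemma -/
theorem exchange (E : ℝ) (hE : E < π / 4) (p r : Fin 3 → ℝ) (hp : ∀ i, 0 < p i)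
    (hr : ∀ i, 0 < r i) (e h t : ℝ) (hv : Val E e h t r) :
    ∃ e' h' t', (Val E e' h' t' r ∧ Val E e' h' t' p ∧
        form e' h' t' p r ≤ form e h t p r) ∨
      (Val E e' h' t' (bar r) ∧ Val E e' h' t' (bar p) ∧
        form e' h' t' (bar p) (bar r) ≤ form e h t p r) := by
  obtain ⟨h1, h2, h3, h4, h5 | h5 | h5⟩ := hv
  · obtain ⟨rfl, rfl⟩ := h5
    exact ⟨0, 0, t, Or.inl ⟨⟨le_rfl, le_rfl, h3, h4, Or.inl ⟨rfl, rfl⟩⟩,
      ⟨le_rfl, le_rfl, h3, h4, Or.inl ⟨rfl, rfl⟩⟩, le_rfl⟩⟩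
  · obtain ⟨rfl, h6⟩ := h5
    obtain ⟨e', h', t', q⟩ := exchange_H (E := E) p r hp hr h2 h3 h4 h6
    exact ⟨e', h', t', Or.inl q⟩
  · obtain ⟨h5, h6, h7⟩ := h5
    have hfull : Full E e h t r := ⟨h1, h2, h3, h4, h5, h6, h7⟩
    obtain ⟨e1, k1, t1, f1, m1⟩ := exists_min hE p r hr ⟨e, h, t, hfull⟩
    by_cases hne : ∃ e h t, Full E e h t (bar r)
    · obtain ⟨e2, k2, t2, f2, m2⟩ := exists_min hE (bar p) (bar r) (bar_pos' hr) hne
      rcases le_total (form e1 k1 t1 p r) (form e2 k2 t2 (bar p) (bar r)) with hle | hle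
      · obtain ⟨e', h', t', q1, q2, q3⟩ := exchange_min hE p r hp hr f1 m1
          (fun e h t hf => hle.trans (m2 e h t hf))
        exact ⟨e', h', t', Or.inl ⟨q1, q2, q3.trans (m1 e h t hfull)⟩⟩
      · obtain ⟨e', h', t', q1, q2, q3⟩ := exchange_min hE (bar p) (bar r) (bar_pos' hp)
          (bar_pos' hr) f2 m2 (fun e h t hf => by
            rw [bar_bar'] at hf ⊢
            rw [bar_bar']
            exact hle.trans (m1 e h t hf))
        exact ⟨e', h', t', Or.inr ⟨q1, q2, q3.trans (hle.trans (m1 e h t hfull))⟩⟩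
    · obtain ⟨e', h', t', q1, q2, q3⟩ := exchange_min hE p r hp hr f1 m1
        (fun e h t hf => absurd ⟨e, h, t, hf⟩ hne)
      exact ⟨e', h', t', Or.inl ⟨q1, q2, q3.trans (m1 e h t hfull)⟩⟩

end Pool.Agent.Helper92.S2
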