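import Mathlib
import Pool.Agent.Helper92.Crypto
import Pool.Agent.Helper92.S2.Defs

/-!
# From the exchange lemma to the upper bound of the value for two players
-/

namespace Pool.Agent.Helper92.S2

open Real Pool.Agent.Helper92.Crypto

private theorem form_symm (e h t : ℝ) (p r : Fin 3 → ℝ) : form e h t p r = form e h t r p := by
  unfold form X
  ring

private theorem form_add (e h t : ℝ) (p q r : Fin 3 → ℝ) :
    form e h t (p + q) r = form e h t p r + form e h t q r := by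
  unfold form X
  simp only [Pi.add_apply]
  ring

private theorem form_smul (e h t c : ℝ) (p r : Fin 3 → ℝ) :
    form e h t (c • p) (c • r) = c ^ 2 * form e h t p r := by
  unfold form X
  simp only [Pi.smul_apply, smul_eq_mul]
  ring

private theorem bar_add (p q : Fin 3 → ℝ) : bar (p + q) = bar p + bar q := by
  funext i
  fin_cases i <;> rfl

private theorem bar_bar (p : Fin 3 → ℝ) : bar (bar p) = p := by
  funext i
  fin_cases i <;> rfl

private theorem bar_pos {p : Fin 3 → ℝ} (h : ∀ i, 0 < p i) : ∀ i, 0 < bar p i := by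
  intro i
  fin_cases i
  · exact h 1
  · exact h 0
  · exact h 2

private theorem bar_0 (p : Fin 3 → ℝ) : bar p 0 = p 1 := rfl
private theorem bar_1 (p : Fin 3 → ℝ) : bar p 1 = p 0 := rfl
private theorem bar_2 (p : Fin 3 → ℝ) : bar p 2 = p 2 := rfl

/-- the values of the valid forms -/
private def Vs (E : ℝ) (p r : Fin 3 → ℝ) : Set ℝ :=
  {v | (∃ e h t, Val E e h t r ∧ v = form e h t p r) ∨
    (∃ e h t, Val E e h t (bar r) ∧ v = form e h t (bar p) (bar r))}

/-- the exchange property -/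
private def EXp (E : ℝ) : Prop :=
  ∀ p r : Fin 3 → ℝ, (∀ i, 0 < p i) → (∀ i, 0 < r i) → ∀ e h t, Val E e h t r →
    ∃ e' h' t', (Val E e' h' t' r ∧ Val E e' h' t' p ∧
        form e' h' t' p r ≤ form e h t p r) ∨
      (Val E e' h' t' (bar r) ∧ Val E e' h' t' (bar p) ∧
        form e' h' t' (bar p) (bar r) ≤ form e h t p r)

/-- the lower bound -/
private def LBp (E : ℝ) : Prop :=
  ∀ p r : Fin 3 → ℝ, (∀ i, 0 ≤ p i) → (∀ i, 0 ≤ r i) → ∀ e h t, Val E e h t p →
    Val E e h t r → min (p 0 * r 2) (p 2 * r 1) ≤ form e h t p r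

private theorem Vs_nonempty {E : ℝ} (hE : 0 < E) (p r : Fin 3 → ℝ) : (Vs E p r).Nonempty :=
  ⟨form 0 0 1 p r, Or.inl ⟨0, 0, 1, ⟨le_rfl, le_rfl, hE.le, one_pos, Or.inl ⟨rfl, rfl⟩⟩, rfl⟩⟩

/-- every value dominates a value with a form valid for both points -/
private theorem both {E : ℝ} (EX : EXp E) {p r : Fin 3 → ℝ} (hp : ∀ i, 0 < p i)
    (hr : ∀ i, 0 < r i) {v : ℝ} (hv : v ∈ Vs E p r) :
    ∃ e h t, (Val E e h t r ∧ Val E e h t p ∧ form e h t p r ≤ v) ∨
      (Val E e h t (bar r) ∧ Val E e h t (bar p) ∧ form e h t (bar p) (bar r) ≤ v) := by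
  rcases hv with ⟨e, h, t, hV, rfl⟩ | ⟨e, h, t, hV, rfl⟩
  · exact EX p r hp hr e h t hV
  · obtain ⟨e', h', t', h1 | h1⟩ := EX (bar p) (bar r) (bar_pos hp) (bar_pos hr) e h t hV
    · exact ⟨e', h', t', Or.inr h1⟩
    · rw [bar_bar, bar_bar] at h1
      exact ⟨e', h', t', Or.inl h1⟩

private theorem lb_val {E : ℝ} (LB : LBp E) {p r : Fin 3 → ℝ} (hp : ∀ i, 0 < p i)
    (hr : ∀ i, 0 < r i) {e h t : ℝ} (h1 : Val E e h t r) (h2 : Val E e h t p) :
    min (p 0 * r 2) (p 2 * r 1) ≤ form e h t p r ∧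
      min (p 1 * r 2) (p 2 * r 0) ≤ form e h t p r := by
  refine ⟨LB p r (fun i => (hp i).le) (fun i => (hr i).le) e h t h2 h1, ?_⟩
  have h3 := LB r p (fun i => (hr i).le) (fun i => (hp i).le) e h t h1 h2
  rw [form_symm] at h3
  rw [min_comm, mul_comm (r 0), mul_comm (r 2)] at h3
  exact h3

private theorem Vs_ge {E : ℝ} (EX : EXp E) (LB : LBp E) {p r : Fin 3 → ℝ} (hp : ∀ i, 0 < p i)
    (hr : ∀ i, 0 < r i) {v : ℝ} (hv : v ∈ Vs E p r) :
    min (p 0 * r 2) (p 2 * r 1) ≤ v ∧ min (p 1 * r 2) (p 2 * r 0) ≤ v := by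
  obtain ⟨e, h, t, ⟨h1, h2, h3⟩ | ⟨h1, h2, h3⟩⟩ := both EX hp hr hv
  · have := lb_val LB hp hr h1 h2
    exact ⟨this.1.trans h3, this.2.trans h3⟩
  · have := lb_val LB (bar_pos hp) (bar_pos hr) h1 h2
    simp only [bar_0, bar_1, bar_2] at this
    exact ⟨this.2.trans h3, this.1.trans h3⟩

private theorem Vs_nonneg {E : ℝ} (EX : EXp E) (LB : LBp E) {p r : Fin 3 → ℝ}
    (hp : ∀ i, 0 < p i) (hr : ∀ i, 0 < r i) {v : ℝ} (hv : v ∈ Vs E p r) : 0 ≤ v := by
  refine le_trans ?_ (Vs_ge EX LB hp hr hv).1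
  exact le_min (mul_pos (hp 0) (hr 2)).le (mul_pos (hp 2) (hr 1)).le

/-- the function on pairs of points with positive coordinates -/
private noncomputable def Fn (E : ℝ) (p r : Fin 3 → ℝ) : ℝ := sInf (Vs E p r)

private theorem Fn_le {E : ℝ} (EX : EXp E) (LB : LBp E) {p r : Fin 3 → ℝ}
    (hp : ∀ i, 0 < p i) (hr : ∀ i, 0 < r i) {v : ℝ} (hv : v ∈ Vs E p r) : Fn E p r ≤ v :=
  csInf_le ⟨0, fun _ hw => Vs_nonneg EX LB hp hr hw⟩ hv

private theorem Fn_nonneg {E : ℝ} (hE : 0 < E) (EX : EXp E) (LB : LBp E) {p r : Fin 3 → ℝ}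
    (hp : ∀ i, 0 < p i) (hr : ∀ i, 0 < r i) : 0 ≤ Fn E p r :=
  le_csInf (Vs_nonempty hE p r) fun _ hw => Vs_nonneg EX LB hp hr hw

private theorem Fn_ge {E : ℝ} (hE : 0 < E) (EX : EXp E) (LB : LBp E) {p r : Fin 3 → ℝ}
    (hp : ∀ i, 0 < p i) (hr : ∀ i, 0 < r i) :
    min (p 0 * r 2) (p 2 * r 1) ≤ Fn E p r ∧ min (p 1 * r 2) (p 2 * r 0) ≤ Fn E p r :=
  ⟨le_csInf (Vs_nonempty hE p r) fun _ hw => (Vs_ge EX LB hp hr hw).1,
    le_csInf (Vs_nonempty hE p r) fun _ hw => (Vs_ge EX LB hp hr hw).2⟩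

private theorem Fn_symm_le {E : ℝ} (hE : 0 < E) (EX : EXp E) (LB : LBp E) {p r : Fin 3 → ℝ}
    (hp : ∀ i, 0 < p i) (hr : ∀ i, 0 < r i) : Fn E r p ≤ Fn E p r := by
  refine le_csInf (Vs_nonempty hE p r) fun v hv => ?_
  obtain ⟨e, h, t, ⟨h1, h2, h3⟩ | ⟨h1, h2, h3⟩⟩ := both EX hp hr hv
  · refine (Fn_le EX LB hr hp (Or.inl ⟨e, h, t, h2, rfl⟩)).trans ?_
    rw [form_symm]
    exact h3
  · refine (Fn_le EX LB hr hp (Or.inr ⟨e, h, t, h2, rfl⟩)).trans ?_
    rw [form_symm]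
    exact h3

private theorem Fn_symm {E : ℝ} (hE : 0 < E) (EX : EXp E) (LB : LBp E) {p r : Fin 3 → ℝ}
    (hp : ∀ i, 0 < p i) (hr : ∀ i, 0 < r i) : Fn E r p = Fn E p r :=
  le_antisymm (Fn_symm_le hE EX LB hp hr) (Fn_symm_le hE EX LB hr hp)

private theorem Fn_add {E : ℝ} (hE : 0 < E) (EX : EXp E) (LB : LBp E) {p q r : Fin 3 → ℝ}
    (hp : ∀ i, 0 < p i) (hq : ∀ i, 0 < q i) (hr : ∀ i, 0 < r i) :
    Fn E p r + Fn E q r ≤ Fn E (p + q) r := by
  refine le_csInf (Vs_nonempty hE _ r) fun v hv => ?_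
  rcases hv with ⟨e, h, t, hV, rfl⟩ | ⟨e, h, t, hV, rfl⟩
  · rw [form_add]
    exact add_le_add (Fn_le EX LB hp hr (Or.inl ⟨e, h, t, hV, rfl⟩))
      (Fn_le EX LB hq hr (Or.inl ⟨e, h, t, hV, rfl⟩))
  · rw [bar_add, form_add]
    exact add_le_add (Fn_le EX LB hp hr (Or.inr ⟨e, h, t, hV, rfl⟩))
      (Fn_le EX LB hq hr (Or.inr ⟨e, h, t, hV, rfl⟩))

private theorem Fn_add' {E : ℝ} (hE : 0 < E) (EX : EXp E) (LB : LBp E) {p r s : Fin 3 → ℝ}
    (hp : ∀ i, 0 < p i) (hr : ∀ i, 0 < r i) (hs : ∀ i, 0 < s i) :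
    Fn E p r + Fn E p s ≤ Fn E p (r + s) := by
  have hrs : ∀ i, 0 < (r + s) i := fun i => add_pos (hr i) (hs i)
  rw [← Fn_symm hE EX LB hp hr, ← Fn_symm hE EX LB hp hs, ← Fn_symm hE EX LB hp hrs]
  exact Fn_add hE EX LB hr hs hp

private theorem Fn_mono {E : ℝ} (hE : 0 < E) (EX : EXp E) (LB : LBp E) {p p' r : Fin 3 → ℝ}
    (hp : ∀ i, 0 < p i) (hpp : ∀ i, p i < p' i) (hr : ∀ i, 0 < r i) :
    Fn E p r ≤ Fn E p' r := by
  have hq : ∀ i, 0 < (p' - p) i := fun i => sub_pos.2 (hpp i)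
  have h1 := Fn_add hE EX LB hp hq hr
  have h2 := Fn_nonneg hE EX LB hq hr
  rw [add_sub_cancel] at h1
  linarith

private theorem Fn_mono' {E : ℝ} (hE : 0 < E) (EX : EXp E) (LB : LBp E) {p r r' : Fin 3 → ℝ}
    (hp : ∀ i, 0 < p i) (hr : ∀ i, 0 < r i) (hrr : ∀ i, r i < r' i) :
    Fn E p r ≤ Fn E p r' := by
  have hr' : ∀ i, 0 < r' i := fun i => (hr i).trans (hrr i)
  rw [← Fn_symm hE EX LB hp hr, ← Fn_symm hE EX LB hp hr']
  exact Fn_mono hE EX LB hr hrr hp

/-- the point of the first player -/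
private def pt0 (f : Option Bool → ℝ) (d : ℝ) : Fin 3 → ℝ :=
  ![f (some false) + d, f (some true) + d, f none + d]

/-- the point of the second player -/
private def pt1 (f : Option Bool → ℝ) (d : ℝ) : Fin 3 → ℝ :=
  ![f (some true) + d, f (some false) + d, f none + d]

private theorem pt0_pos {f : Option Bool → ℝ} (hf : ∀ o, 0 ≤ f o) {d : ℝ} (hd : 0 < d) :
    ∀ i, 0 < pt0 f d i := by
  intro i
  fin_cases i
  · exact add_pos_of_nonneg_of_pos (hf _) hd
  · exact add_pos_of_nonneg_of_pos (hf _) hd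
  · exact add_pos_of_nonneg_of_pos (hf _) hd

private theorem pt1_pos {f : Option Bool → ℝ} (hf : ∀ o, 0 ≤ f o) {d : ℝ} (hd : 0 < d) :
    ∀ i, 0 < pt1 f d i := by
  intro i
  fin_cases i
  · exact add_pos_of_nonneg_of_pos (hf _) hd
  · exact add_pos_of_nonneg_of_pos (hf _) hd
  · exact add_pos_of_nonneg_of_pos (hf _) hd

private theorem pt0_lt (f : Option Bool → ℝ) {d d' : ℝ} (hd : d < d') :
    ∀ i, pt0 f d i < pt0 f d' i := by
  intro i
  fin_cases i
  · exact add_lt_add_right hd _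
  · exact add_lt_add_right hd _
  · exact add_lt_add_right hd _

private theorem pt1_lt (f : Option Bool → ℝ) {d d' : ℝ} (hd : d < d') :
    ∀ i, pt1 f d i < pt1 f d' i := by
  intro i
  fin_cases i
  · exact add_lt_add_right hd _
  · exact add_lt_add_right hd _
  · exact add_lt_add_right hd _

private theorem pt0_add (f g : Option Bool → ℝ) (d : ℝ) :
    pt0 (f + g) d = pt0 f (d / 2) + pt0 g (d / 2) := by
  funext i
  fin_cases i
  · show f (some false) + g (some false) + d = f (some false) + d / 2 + (g (some false) + d / 2)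
    ring
  · show f (some true) + g (some true) + d = f (some true) + d / 2 + (g (some true) + d / 2)
    ring
  · show f none + g none + d = f none + d / 2 + (g none + d / 2)
    ring

private theorem pt1_add (f g : Option Bool → ℝ) (d : ℝ) :
    pt1 (f + g) d = pt1 f (d / 2) + pt1 g (d / 2) := by
  funext i
  fin_cases i
  · show f (some true) + g (some true) + d = f (some true) + d / 2 + (g (some true) + d / 2)
    ring
  · show f (some false) + g (some false) + d = f (some false) + d / 2 + (g (some false) + d / 2)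
    ring
  · show f none + g none + d = f none + d / 2 + (g none + d / 2)
    ring

/-- the values of the potential before the limit -/
private def Ws (E : ℝ) (S : Fin 2 → Option Bool → ℝ) : Set ℝ :=
  {v | ∃ d : ℝ, 0 < d ∧ v = Fn E (pt0 (S 0) d) (pt1 (S 1) d)}

/-- the potential -/
private noncomputable def Ph (E : ℝ) (S : Fin 2 → Option Bool → ℝ) : ℝ := sInf (Ws E S)

private theorem Ws_nonempty (E : ℝ) (S : Fin 2 → Option Bool → ℝ) : (Ws E S).Nonempty :=
  ⟨_, 1, one_pos, rfl⟩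

private theorem Ph_le {E : ℝ} (hE : 0 < E) (EX : EXp E) (LB : LBp E)
    {S : Fin 2 → Option Bool → ℝ} (hS : ∀ l o, 0 ≤ S l o) {d : ℝ} (hd : 0 < d) :
    Ph E S ≤ Fn E (pt0 (S 0) d) (pt1 (S 1) d) := by
  refine csInf_le ⟨0, ?_⟩ ⟨d, hd, rfl⟩
  rintro _ ⟨d', hd', rfl⟩
  exact Fn_nonneg hE EX LB (pt0_pos (hS 0) hd') (pt1_pos (hS 1) hd')

private theorem Ph_superAdd {E : ℝ} (hE : 0 < E) (EX : EXp E) (LB : LBp E) :
    SuperAdd (Ph E) := by
  intro i S p q hS hp hq
  refine le_csInf (Ws_nonempty E _) ?_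
  rintro _ ⟨d, hd, rfl⟩
  have hd2 : 0 < d / 2 := by linarith
  have hlt : d / 2 < d := by linarith
  have hSp : ∀ l o, 0 ≤ Function.update S i p l o := by
    intro l o
    by_cases hl : l = i
    · subst hl
      rw [Function.update_self]
      exact hp o
    · rw [Function.update_of_ne hl]
      exact hS l o
  have hSq : ∀ l o, 0 ≤ Function.update S i q l o := by
    intro l o
    by_cases hl : l = i
    · subst hl
      rw [Function.update_self]
      exact hq o
    · rw [Function.update_of_ne hl]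
      exact hS l o
  have h1 := Ph_le hE EX LB hSp hd2
  have h2 := Ph_le hE EX LB hSq hd2
  have hi : i = 0 ∨ i = 1 := by
    fin_cases i
    · exact Or.inl rfl
    · exact Or.inr rfl
  rcases hi with rfl | rfl
  · have n10 : (1 : Fin 2) ≠ 0 := by decide
    rw [Function.update_self, Function.update_of_ne n10] at h1 h2 ⊢
    rw [pt0_add]
    have h3 := Fn_add hE EX LB (pt0_pos hp hd2) (pt0_pos hq hd2) (pt1_pos (hS 1) hd)
    have h4 := Fn_mono' hE EX LB (pt0_pos hp hd2) (pt1_pos (hS 1) hd2) (pt1_lt (S 1) hlt)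
    have h5 := Fn_mono' hE EX LB (pt0_pos hq hd2) (pt1_pos (hS 1) hd2) (pt1_lt (S 1) hlt)
    linarith
  · have n01 : (0 : Fin 2) ≠ 1 := by decide
    rw [Function.update_self, Function.update_of_ne n01] at h1 h2 ⊢
    rw [pt1_add]
    have h3 := Fn_add' hE EX LB (pt0_pos (hS 0) hd) (pt1_pos hp hd2) (pt1_pos hq hd2)
    have h4 := Fn_mono hE EX LB (pt0_pos (hS 0) hd2) (pt0_lt (S 0) hlt) (pt1_pos hp hd2)
    have h5 := Fn_mono hE EX LB (pt0_pos (hS 0) hd2) (pt0_lt (S 0) hlt) (pt1_pos hq hd2)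
    linarith

private theorem Ph_majorizes {E : ℝ} (hE : 0 < E) (EX : EXp E) (LB : LBp E) :
    Majorizes (Ph E) := by
  intro S hS out
  have w0 : ∀ x, wt S x 0 = S 0 (some x) * S 1 none := by
    intro x
    simp [wt, inp, Fin.prod_univ_two]
  have w1 : ∀ x, wt S x 1 = S 0 none * S 1 (some x) := by
    intro x
    simp [wt, inp, Fin.prod_univ_two]
  have key : min (wt S out 0) (wt S out 1) ≤ Ph E S := by
    refine le_csInf (Ws_nonempty E _) ?_
    rintro _ ⟨d, hd, rfl⟩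
    have h1 := Fn_ge hE EX LB (pt0_pos (hS 0) hd) (pt1_pos (hS 1) hd)
    have hm : ∀ a b : ℝ, 0 ≤ a → 0 ≤ b → a * b ≤ (a + d) * (b + d) := by
      intro a b ha hb
      nlinarith
    rw [w0, w1]
    cases out with
    | false =>
      refine le_trans ?_ h1.1
      exact min_le_min (hm _ _ (hS _ _) (hS _ _)) (hm _ _ (hS _ _) (hS _ _))
    | true =>
      refine le_trans ?_ h1.2
      exact min_le_min (hm _ _ (hS _ _) (hS _ _)) (hm _ _ (hS _ _) (hS _ _))
  rcases le_total (wt S out 0) (wt S out 1) with h | h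
  · refine ⟨1, ?_⟩
    rw [Fin.sum_univ_two, add_sub_cancel_right]
    rw [min_eq_left h] at key
    exact key
  · refine ⟨0, ?_⟩
    rw [Fin.sum_univ_two, add_sub_cancel_left]
    rw [min_eq_right h] at key
    exact key

theorem cryptoValue_two_le_form (E : ℝ) (hE0 : 0 < E) (hE : E < π / 4)
    (EX : ∀ p r : Fin 3 → ℝ, (∀ i, 0 < p i) → (∀ i, 0 < r i) → ∀ e h t, Val E e h t r →
      ∃ e' h' t', (Val E e' h' t' r ∧ Val E e' h' t' p ∧
          form e' h' t' p r ≤ form e h t p r) ∨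
        (Val E e' h' t' (bar r) ∧ Val E e' h' t' (bar p) ∧
          form e' h' t' (bar p) (bar r) ≤ form e h t p r))
    (LB : ∀ p r : Fin 3 → ℝ, (∀ i, 0 ≤ p i) → (∀ i, 0 ≤ r i) → ∀ e h t, Val E e h t p →
      Val E e h t r → min (p 0 * r 2) (p 2 * r 1) ≤ form e h t p r) :
    cryptoValue 2 ≤ (1 / 4) * form E E (1 / √2) 1 1 := by
  have h1 := cryptoValue_le_of_potential (k := 2) (by norm_num) (Ph_majorizes hE0 EX LB)
    (Ph_superAdd hE0 EX LB)
  have hs2 : 0 < √(2 : ℝ) := Real.sqrt_pos.2 (by norm_num)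
  have hss : √(2 : ℝ) * √2 = 2 := Real.mul_self_sqrt (by norm_num)
  have hcos : 1 / √2 ≤ cos E := by
    have h2 : cos (π / 4) ≤ cos E := by
      refine Real.cos_le_cos_of_nonneg_of_le_pi hE0.le ?_ hE.le
      have := Real.pi_pos
      linarith
    rw [Real.cos_pi_div_four] at h2
    have h3 : 1 / √(2 : ℝ) = √2 / 2 := by
      rw [div_eq_div_iff hs2.ne' (by norm_num)]
      linarith
    rw [h3]
    exact h2
  have htt : (1 / √(2 : ℝ)) * (1 / √2) = 1 / 2 := by
    rw [div_mul_div_comm, hss, one_mul]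
  have ht : 0 < 1 / √(2 : ℝ) := by positivity
  have hval : ∀ c : ℝ, 0 < c → Val E E E (1 / √2) (c • (1 : Fin 3 → ℝ)) := by
    intro c hc
    refine ⟨hE0.le, le_rfl, le_rfl, ht, Or.inr (Or.inr ⟨?_, ?_, ?_⟩)⟩
    · have e1 : A1 E E (1 / √2) (c • (1 : Fin 3 → ℝ)) =
          c * (4 * (cos E * (1 / √2)) - 2) := by
        unfold A1
        simp only [Pi.smul_apply, Pi.one_apply, smul_eq_mul]
        ring
      rw [e1]
      refine mul_nonneg hc.le ?_
      nlinarith
    · have e1 : A2 E E (1 / √2) (c • (1 : Fin 3 → ℝ)) =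
          c * (4 * (cos E * (1 / √2)) - 2) := by
        unfold A2
        simp only [Pi.smul_apply, Pi.one_apply, smul_eq_mul]
        ring
      rw [e1]
      refine mul_nonneg hc.le ?_
      nlinarith
    · have e1 : A3 E E (1 / √2) (c • (1 : Fin 3 → ℝ)) = c * (4 * (cos E - 1 / √2)) := by
        unfold A3
        simp only [Pi.smul_apply, Pi.one_apply, smul_eq_mul]
        ring
      rw [e1]
      refine mul_nonneg hc.le ?_
      linarith
  have hb : bar 1 = 1 := by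
    funext i
    fin_cases i <;> rfl
  have h5 : ∀ d : ℝ, 0 < d →
      Ph E (fun _ _ => 1) ≤ (1 + d) ^ 2 * form E E (1 / √2) 1 1 := by
    intro d hd
    have hc : 0 < 1 + d := by linarith
    have hcp : ∀ i, 0 < ((1 + d) • (1 : Fin 3 → ℝ)) i := by
      intro i
      simpa using hc
    have e0 : pt0 (fun _ => 1) d = (1 + d) • (1 : Fin 3 → ℝ) := by
      funext i
      fin_cases i <;> simp [pt0]
    have e1 : pt1 (fun _ => 1) d = (1 + d) • (1 : Fin 3 → ℝ) := by
      funext i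
      fin_cases i <;> simp [pt1]
    have h6 := Ph_le hE0 EX LB (S := fun _ _ => 1) (fun _ _ => zero_le_one) hd
    rw [e0, e1] at h6
    refine h6.trans ?_
    rw [← form_smul]
    exact Fn_le EX LB hcp hcp (Or.inl ⟨E, E, 1 / √2, hval _ hc, rfl⟩)
  have h7 : Ph E (fun _ _ => 1) ≤ form E E (1 / √2) 1 1 := by
    have hlim : Filter.Tendsto (fun d : ℝ => (1 + d) ^ 2 * form E E (1 / √2) 1 1)
        (nhdsWithin 0 (Set.Ioi 0)) (nhds ((1 + 0) ^ 2 * form E E (1 / √2) 1 1)) := by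
      refine Filter.Tendsto.mono_left ?_ nhdsWithin_le_nhds
      have : Continuous fun d : ℝ => (1 + d) ^ 2 * form E E (1 / √2) 1 1 := by fun_prop
      exact this.tendsto 0
    have := ge_of_tendsto hlim (Filter.eventually_of_mem self_mem_nhdsWithin fun d hd => h5 d hd)
    simpa using this
  have h8 : (1 / (2 * ((2 : ℕ) : ℝ))) = 1 / 4 := by norm_num
  rw [h8] at h1
  exact h1.trans (mul_le_mul_of_nonneg_left h7 (by norm_num))

theorem form_diag (E : ℝ) :
    form E E (1 / √2) 1 1 = 2 + exp (-E) / (cos E + sin E) * ((cos E - sin E) * √2 - 2) := by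
  have hs2 : 0 < √(2 : ℝ) := Real.sqrt_pos.2 (by norm_num)
  have hss : √(2 : ℝ) * √2 = 2 := Real.mul_self_sqrt (by norm_num)
  have h1 : 1 / √(2 : ℝ) = √2 / 2 := by
    rw [div_eq_div_iff hs2.ne' (by norm_num)]
    linarith
  have h2 : 1 / (8 * (√(2 : ℝ) / 2)) = √2 / 8 := by
    rw [div_eq_div_iff (by positivity) (by norm_num)]
    nlinarith
  unfold form X G D
  rw [h1, h2]
  simp only [Pi.one_apply]
  have h3 : cos E + (1 - (E - E)) * sin E = cos E + sin E := by ring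
  rw [h3]
  ring

theorem cryptoValue_two_le (h : ∀ E : ℝ, 0 < E → E < π / 4 →
    cryptoValue 2 ≤ (1 / 4) * form E E (1 / √2) 1 1) :
    cryptoValue 2 ≤ 1 / 2 - exp (-(π / 4)) / (2 * √2) := by
  have hs2 : 0 < √(2 : ℝ) := Real.sqrt_pos.2 (by norm_num)
  have hss : √(2 : ℝ) * √2 = 2 := Real.mul_self_sqrt (by norm_num)
  have hpi := Real.pi_pos
  have hcs : cos (π / 4) + sin (π / 4) = √2 := by
    rw [Real.cos_pi_div_four, Real.sin_pi_div_four]
    ring
  have hcd : cos (π / 4) - sin (π / 4) = 0 := by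
    rw [Real.cos_pi_div_four, Real.sin_pi_div_four]
    ring
  have hlim : Filter.Tendsto (fun E : ℝ => (1 / 4) * (2 + exp (-E) / (cos E + sin E) *
      ((cos E - sin E) * √2 - 2))) (nhdsWithin (π / 4) (Set.Iio (π / 4)))
      (nhds ((1 / 4) * (2 + exp (-(π / 4)) / (cos (π / 4) + sin (π / 4)) *
      ((cos (π / 4) - sin (π / 4)) * √2 - 2)))) := by
    refine Filter.Tendsto.mono_left ?_ nhdsWithin_le_nhds
    have hc : ContinuousAt (fun E : ℝ => (1 / 4) * (2 + exp (-E) / (cos E + sin E) *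
        ((cos E - sin E) * √2 - 2))) (π / 4) := by
      refine ContinuousAt.mul continuousAt_const (ContinuousAt.add continuousAt_const
        (ContinuousAt.mul (ContinuousAt.div ?_ ?_ ?_) ?_))
      · fun_prop
      · fun_prop
      · rw [hcs]
        exact hs2.ne'
      · fun_prop
    exact hc
  have hev : ∀ᶠ E in nhdsWithin (π / 4) (Set.Iio (π / 4)),
      cryptoValue 2 ≤ (1 / 4) * (2 + exp (-E) / (cos E + sin E) *
      ((cos E - sin E) * √2 - 2)) := by
    have h1 : ∀ᶠ E in nhdsWithin (π / 4) (Set.Iio (π / 4)), 0 < E :=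
      (lt_mem_nhds (by positivity : (0 : ℝ) < π / 4)).filter_mono nhdsWithin_le_nhds
    filter_upwards [h1, self_mem_nhdsWithin] with E h2 h3
    rw [← form_diag]
    exact h E h2 h3
  have h4 := ge_of_tendsto hlim hev
  rw [hcs, hcd] at h4
  refine h4.trans (le_of_eq ?_)
  field_simp
  nlinarith

end Pool.Agent.Helper92.S2
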