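import Mathlib
import Pool.Agent.Helper92.S2.Defs
import Pool.Agent.Helper92.S2.Basic

/-!
# Lower bound for the bilinear forms (task S2-U2)

`form e h t p r ≥ min (p 0 * r 2) (p 2 * r 1)` on the region of validity.
-/

namespace Pool.Agent.Helper92.S2

open Real

/-- numerical facts used for the nine coefficients -/
structure LowHyp (c s x k y h : ℝ) : Prop where
  c0 : 0 < c
  c1 : c ≤ 1
  s0 : 0 ≤ s
  sc : s ≤ c
  cs : c ^ 2 + s ^ 2 = 1
  x0 : 0 ≤ x
  k0 : 0 < k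
  k1 : k ≤ 1
  kc : k ≤ c
  kap : k * (c + s) ≤ 1
  b7 : (1 - k) * c ≤ s
  y0 : 0 < y
  y1 : y ≤ 1
  y2 : y * (2 + x) ≤ 2
  yx : y * (1 + x) ≤ 1
  D0 : 0 ≤ c - (1 + x) * s
  h0 : 0 ≤ h
  b6 : h * (1 - h) ≤ c - k
  sh : s ≤ h
  hx : h + x < 0.7854

section coefs

variable {c s x k y h : ℝ}

theorem LowHyp.x1 (H : LowHyp c s x k y h) : x ≤ 1 := by
  have := H.hx; have := H.h0; linarith

theorem LowHyp.chalf (H : LowHyp c s x k y h) : 1 / 2 ≤ c := by
  by_contra hc
  push Not at hc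
  have h1 := H.cs
  have h2 := H.sc
  have h3 := H.s0
  have h4 := H.c0
  nlinarith

/-- `y (2 + k x) ≤ 2` -/
theorem LowHyp.y2k (H : LowHyp c s x k y h) : y * (2 + k * x) ≤ 2 := by
  have h1 : y * (k * x) ≤ y * x := by
    apply mul_le_mul_of_nonneg_left _ H.y0.le
    have := mul_le_mul_of_nonneg_right H.k1 H.x0
    linarith
  have h2 := H.y2
  nlinarith

/-- the basic bracket -/
theorem LowHyp.brk (H : LowHyp c s x k y h) :
    0 ≤ 1 - (c - s) * k - k * s * (y * (2 + k * x)) := by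
  have h1 : k * s * (y * (2 + k * x)) ≤ k * s * 2 :=
    mul_le_mul_of_nonneg_left H.y2k (mul_nonneg H.k0.le H.s0)
  have h2 := H.kap
  nlinarith

theorem LowHyp.q0 (H : LowHyp c s x k y h) : 0 < y * k := mul_pos H.y0 H.k0

theorem LowHyp.qk (H : LowHyp c s x k y h) : y * k ≤ k := by
  have := mul_le_mul_of_nonneg_right H.y1 H.k0.le
  linarith

theorem LowHyp.q1 (H : LowHyp c s x k y h) : y * k ≤ 1 := H.qk.trans H.k1

/-- `T12` -/
theorem LowHyp.T12 (H : LowHyp c s x k y h) :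
    0 ≤ (c - x * s) * (-(y * k * c) + y * k / 2 * (1 + x + ((1 - x) * c - (1 + x) * s) * k)) +
      c * (y * k * (c - (2 + x) * s) + (1 - (c - s) * k) - y * k / 2 * (1 + (c - s) * k)) := by
  have e1 : (c - x * s) * (-(y * k * c) + y * k / 2 * (1 + x + ((1 - x) * c - (1 + x) * s) * k)) +
      c * (y * k * (c - (2 + x) * s) + (1 - (c - s) * k) - y * k / 2 * (1 + (c - s) * k)) =
      c * (1 - (c - s) * k - k * s * (y * (2 + k * x))) +
        1 / 2 * (y * k) * x * (c - (1 + x) * s) * (1 - k * (c + s)) := by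
    ring
  rw [e1]
  have h1 := mul_nonneg H.c0.le H.brk
  have h2 : 0 ≤ 1 - k * (c + s) := by have := H.kap; linarith
  have h3 := mul_nonneg (mul_nonneg (mul_nonneg H.q0.le H.x0) H.D0) h2
  linarith

/-- `T13` -/
theorem LowHyp.T13 (H : LowHyp c s x k y h) :
    0 ≤ (c - x * s) * (-(y * k) + y * k / 2 * ((2 + x) * c - x * s - x * k)) +
      1 * (y * k * (c - (2 + x) * s) + (1 - (c - s) * k) - y * k / 2 * (1 + (c - s) * k)) := by
  have e1 : (c - x * s) * (-(y * k) + y * k / 2 * ((2 + x) * c - x * s - x * k)) +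
      1 * (y * k * (c - (2 + x) * s) + (1 - (c - s) * k) - y * k / 2 * (1 + (c - s) * k)) =
      (1 - (c - s) * k - k * s * (y * (2 + k * x))) +
        1 / 2 * (y * k) * (c - (1 + x) * s) * ((1 + x) * (c - k) + (1 - x) * s) := by
    linear_combination (y * k / 2) * H.cs
  rw [e1]
  have h1 := H.brk
  have h2 : 0 ≤ (1 + x) * (c - k) + (1 - x) * s := by
    have := mul_nonneg (by have := H.x0; linarith : 0 ≤ 1 + x)
      (by have := H.kc; linarith : 0 ≤ c - k)
    have := mul_nonneg (by have := H.x1; linarith : 0 ≤ 1 - x) H.s0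
    linarith
  have h3 := mul_nonneg (mul_nonneg H.q0.le H.D0) h2
  linarith

/-- `T11` -/
theorem LowHyp.T11 (H : LowHyp c s x k y h) :
    0 ≤ (c - x * s) * (y * k * (c - (2 + x) * s) + y * k / 2 * (1 - (c - s) * k)) +
      (c - x * s) * (y * k * (c - (2 + x) * s) + (1 - (c - s) * k) -
        y * k / 2 * (1 + (c - s) * k)) - y * k * (c - (1 + x) * s) ^ 2 := by
  have e1 : (c - x * s) * (y * k * (c - (2 + x) * s) + y * k / 2 * (1 - (c - s) * k)) +
      (c - x * s) * (y * k * (c - (2 + x) * s) + (1 - (c - s) * k) -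
        y * k / 2 * (1 + (c - s) * k)) - y * k * (c - (1 + x) * s) ^ 2 =
      (c - (1 + x) * s) * (1 - (c - s) * k - k * s * (y * (2 + k * x))) +
      s * (1 - (c - s) * k - k * s * (y * (2 + k * x))) +
        y * k * (c - (1 + x) * s) * ((c - (1 + x) * s) * (1 - k) + s * (2 - (1 + x) * k)) +
        (c - x * s) * (y * k * k * x * s) - x * k * s ^ 2 * (y * k) := by
    ring
  rw [e1]
  have h1 := H.brk
  have h2 := mul_nonneg H.D0 H.brk
  have h3 := mul_nonneg H.s0 H.brk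
  have h4 : 0 ≤ (c - (1 + x) * s) * (1 - k) + s * (2 - (1 + x) * k) := by
    have a1 := mul_nonneg H.D0 (by have := H.k1; linarith : 0 ≤ 1 - k)
    have a2 : 0 ≤ 2 - (1 + x) * k := by
      have b1 := H.x1
      have b2 := H.k1
      have b3 := H.k0
      have b4 := H.x0
      nlinarith
    have a3 := mul_nonneg H.s0 a2
    linarith
  have h5 := mul_nonneg (mul_nonneg H.q0.le H.D0) h4
  have h6 : 0 ≤ (c - (1 + x) * s) * (y * k * k * x * s) :=
    mul_nonneg H.D0 (mul_nonneg (mul_nonneg (mul_nonneg H.q0.le H.k0.le) H.x0) H.s0)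
  nlinarith

/-- `T21` -/
theorem LowHyp.T21 (H : LowHyp c s x k y h) :
    0 ≤ c * (y * k * (c - (2 + x) * s) + y * k / 2 * (1 - (c - s) * k)) +
      (c - x * s) * (-(y * k * c) + (1 + x + ((1 - x) * c - (1 + x) * s) * k) -
        y * k / 2 * (1 + x - ((1 - x) * c - (1 + x) * s) * k)) := by
  have e1 : c * (y * k * (c - (2 + x) * s) + y * k / 2 * (1 - (c - s) * k)) +
      (c - x * s) * (-(y * k * c) + (1 + x + ((1 - x) * c - (1 + x) * s) * k) -
        y * k / 2 * (1 + x - ((1 - x) * c - (1 + x) * s) * k)) =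
      ((c - x * s) * (-(y * k * c) + y * k / 2 * (1 + x + ((1 - x) * c - (1 + x) * s) * k)) +
      c * (y * k * (c - (2 + x) * s) + (1 - (c - s) * k) - y * k / 2 * (1 + (c - s) * k))) +
      (c - (1 + x) * s) * (k * (2 * c - x * y) + x * (1 - k * (c + s))) := by
    ring
  rw [e1]
  have h1 := H.T12
  have h2 : 0 ≤ 2 * c - x * y := by
    have b1 := H.chalf
    have b2 := H.x1
    have b3 := H.y1
    have b4 := H.x0
    have b5 := H.y0
    nlinarith
  have h3 : 0 ≤ 1 - k * (c + s) := by have := H.kap; linarith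
  have h4 := mul_nonneg H.D0 (add_nonneg (mul_nonneg H.k0.le h2) (mul_nonneg H.x0 h3))
  linarith

/-- `T31` -/
theorem LowHyp.T31 (H : LowHyp c s x k y h) :
    0 ≤ 1 * (y * k * (c - (2 + x) * s) + y * k / 2 * (1 - (c - s) * k)) +
      (c - x * s) * (-(y * k) + ((2 + x) * c - x * s - x * k) -
        y * k / 2 * ((2 + x) * c - x * s + x * k)) := by
  have e1 : 1 * (y * k * (c - (2 + x) * s) + y * k / 2 * (1 - (c - s) * k)) +
      (c - x * s) * (-(y * k) + ((2 + x) * c - x * s - x * k) -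
        y * k / 2 * ((2 + x) * c - x * s + x * k)) =
      ((c - x * s) * (-(y * k) + y * k / 2 * ((2 + x) * c - x * s - x * k)) +
      1 * (y * k * (c - (2 + x) * s) + (1 - (c - s) * k) - y * k / 2 * (1 + (c - s) * k))) +
      (c - (1 + x) * s) * ((1 - x) * k + (1 - y * k) * ((1 + x) * c + (1 - x) * s)) := by
    linear_combination (1 - y * k) * H.cs
  rw [e1]
  have h1 := H.T13
  have h2 : 0 ≤ (1 + x) * c + (1 - x) * s :=
    add_nonneg (mul_nonneg (by have := H.x0; linarith) H.c0.le)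
      (mul_nonneg (by have := H.x1; linarith) H.s0)
  have h3 : 0 ≤ (1 - x) * k := mul_nonneg (by have := H.x1; linarith) H.k0.le
  have h4 := mul_nonneg H.D0 (add_nonneg h3 (mul_nonneg (by have := H.q1; linarith :
    0 ≤ 1 - y * k) h2))
  linarith

/-- `T22` -/
theorem LowHyp.T22 (H : LowHyp c s x k y h) :
    0 ≤ c * (-(y * k * c) + y * k / 2 * (1 + x + ((1 - x) * c - (1 + x) * s) * k)) +
      c * (-(y * k * c) + (1 + x + ((1 - x) * c - (1 + x) * s) * k) -
        y * k / 2 * (1 + x - ((1 - x) * c - (1 + x) * s) * k)) -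
      y * k * (c - (1 + x) * s) ^ 2 := by
  have hX : 0 < 1 + x := by have := H.x0; linarith
  refine nonneg_of_mul_nonneg_right ?_ hX
  have hcoef : 0 ≤ 2 * c ^ 2 + (c - (1 + x) * s) ^ 2 -
      k * c * ((1 - x) * c - (1 + x) * s) := by
    have a1 := H.c0
    have a2 := H.k0
    have a3 := H.k1
    have a4 := H.x0
    have a5 := H.s0
    have a6 : (1 - x) * c - (1 + x) * s ≤ c := by nlinarith [mul_nonneg a4 a1.le, mul_nonneg a4 a5]
    have a7 : k * c * ((1 - x) * c - (1 + x) * s) ≤ k * c * c :=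
      mul_le_mul_of_nonneg_left a6 (mul_nonneg a2.le a1.le)
    have a8 : k * c * c ≤ 1 * c * c := by
      have := mul_le_mul_of_nonneg_right a3 (mul_nonneg a1.le a1.le)
      nlinarith
    nlinarith [sq_nonneg (c - (1 + x) * s)]
  have hq : y * k * (1 + x) ≤ k := by
    have := mul_le_mul_of_nonneg_right H.yx H.k0.le
    nlinarith
  have hmain := mul_le_mul_of_nonneg_right hq hcoef
  have e1 : (1 + x) * (c * (-(y * k * c) +
      y * k / 2 * (1 + x + ((1 - x) * c - (1 + x) * s) * k)) +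
      c * (-(y * k * c) + (1 + x + ((1 - x) * c - (1 + x) * s) * k) -
        y * k / 2 * (1 + x - ((1 - x) * c - (1 + x) * s) * k)) -
      y * k * (c - (1 + x) * s) ^ 2) =
      c * (1 + x) * (1 + x + ((1 - x) * c - (1 + x) * s) * k) -
      y * k * (1 + x) * (2 * c ^ 2 + (c - (1 + x) * s) ^ 2 -
      k * c * ((1 - x) * c - (1 + x) * s)) := by
    ring
  rw [e1]
  have h2 : 0 ≤ 1 - k * (c + s) := by have := H.kap; linarith
  -- value at X = 1
  have v1 : 0 ≤ c * (1 - k * (c + s)) + k * (c - s) * (s - (1 - k) * c) := by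
    have a1 := mul_nonneg H.c0.le h2
    have a2 : 0 ≤ k * (c - s) * (s - (1 - k) * c) :=
      mul_nonneg (mul_nonneg H.k0.le (by have := H.sc; linarith)) (by have := H.b7; linarith)
    linarith
  -- slope
  have v2 : 0 ≤ (c * (1 - k * (c + s)) - k * s ^ 2) * (2 + x) + k * c * (c + s) * (2 - k) := by
    have a1 : 0 ≤ c * (1 - k * (c + s)) * (2 + x) :=
      mul_nonneg (mul_nonneg H.c0.le h2) (by have := H.x0; linarith)
    have a2 : (2 + x) * s ^ 2 ≤ s * (c + s) := by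
      have := mul_nonneg H.s0 H.D0
      nlinarith
    have a3 : k * ((2 + x) * s ^ 2) ≤ k * (s * (c + s)) := mul_le_mul_of_nonneg_left a2 H.k0.le
    have a4 : 0 ≤ k * (c + s) * (c * (2 - k) - s) := by
      have b1 : 0 ≤ c * (2 - k) - s := by
        have := H.sc
        have := mul_nonneg H.c0.le (by have := H.k1; linarith : 0 ≤ 1 - k)
        nlinarith
      exact mul_nonneg (mul_nonneg H.k0.le (add_nonneg H.c0.le H.s0)) b1
    nlinarith
  have v3 := mul_nonneg H.x0 v2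
  have e2 : c * (1 + x) * (1 + x + ((1 - x) * c - (1 + x) * s) * k) -
      k * (2 * c ^ 2 + (c - (1 + x) * s) ^ 2 - k * c * ((1 - x) * c - (1 + x) * s)) =
      (c * (1 - k * (c + s)) + k * (c - s) * (s - (1 - k) * c)) +
      x * ((c * (1 - k * (c + s)) - k * s ^ 2) * (2 + x) + k * c * (c + s) * (2 - k)) := by
    ring
  linarith

/-- `T23` -/
theorem LowHyp.T23 (H : LowHyp c s x k y h) :
    0 ≤ c * (-(y * k) + y * k / 2 * ((2 + x) * c - x * s - x * k)) +
      1 * (-(y * k * c) + (1 + x + ((1 - x) * c - (1 + x) * s) * k) -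
        y * k / 2 * (1 + x - ((1 - x) * c - (1 + x) * s) * k)) := by
  have e1 : c * (-(y * k) + y * k / 2 * ((2 + x) * c - x * s - x * k)) +
      1 * (-(y * k * c) + (1 + x + ((1 - x) * c - (1 + x) * s) * k) -
        y * k / 2 * (1 + x - ((1 - x) * c - (1 + x) * s) * k)) =
      (1 + x) * (1 - k * (c + s)) + k * c * (2 - y * (2 + k * x)) +
        1 / 2 * (y * k) * (c - (1 + x) * s) * (c + s + k) := by
    linear_combination (y * k / 2 * (1 + x)) * H.cs
  rw [e1]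
  have h2 : 0 ≤ 1 - k * (c + s) := by have := H.kap; linarith
  have a1 := mul_nonneg (by have := H.x0; linarith : 0 ≤ 1 + x) h2
  have a2 := mul_nonneg (mul_nonneg H.k0.le H.c0.le) (by have := H.y2k; linarith :
    0 ≤ 2 - y * (2 + k * x))
  have a3 := mul_nonneg (mul_nonneg H.q0.le H.D0)
    (add_nonneg (add_nonneg H.c0.le H.s0) H.k0.le)
  linarith

/-- `T33` -/
theorem LowHyp.T33 (H : LowHyp c s x k y h) :
    0 ≤ 1 * (-(y * k) + y * k / 2 * ((2 + x) * c - x * s - x * k)) +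
      1 * (-(y * k) + ((2 + x) * c - x * s - x * k) -
        y * k / 2 * ((2 + x) * c - x * s + x * k)) + y * k * (c - (1 + x) * s) ^ 2 := by
  have e1 : 1 * (-(y * k) + y * k / 2 * ((2 + x) * c - x * s - x * k)) +
      1 * (-(y * k) + ((2 + x) * c - x * s - x * k) -
        y * k / 2 * ((2 + x) * c - x * s + x * k)) + y * k * (c - (1 + x) * s) ^ 2 =
      (2 + x) * (c - k) - x * s + k * (2 - y * (2 + k * x)) +
        y * k * (c - (1 + x) * s) ^ 2 := by
    ring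
  rw [e1]
  have a2 := mul_nonneg H.k0.le (by have := H.y2k; linarith : 0 ≤ 2 - y * (2 + k * x))
  have a3 := mul_nonneg H.q0.le (sq_nonneg (c - (1 + x) * s))
  have a4 : 0 ≤ (2 + x) * (c - k) - x * s := by
    have b1 : (2 + x) * (h * (1 - h)) ≤ (2 + x) * (c - k) :=
      mul_le_mul_of_nonneg_left H.b6 (by have := H.x0; linarith)
    have b2 : x * s ≤ x * h := mul_le_mul_of_nonneg_left H.sh H.x0
    have b3 : 0 ≤ 2 * (1 - h) - x * h := by
      have := H.hx
      have := H.x0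
      have := H.h0
      nlinarith
    have b4 := mul_nonneg H.h0 b3
    nlinarith
  linarith

/-- `T32` -/
theorem LowHyp.T32 (H : LowHyp c s x k y h) :
    0 ≤ 1 * (-(y * k * c) + y * k / 2 * (1 + x + ((1 - x) * c - (1 + x) * s) * k)) +
      c * (-(y * k) + ((2 + x) * c - x * s - x * k) -
        y * k / 2 * ((2 + x) * c - x * s + x * k)) := by
  have hX : 0 < 1 + x := by have := H.x0; linarith
  refine nonneg_of_mul_nonneg_right ?_ hX
  have h2 : 0 ≤ 1 - k * (c + s) := by have := H.kap; linarith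
  have hN' : 0 ≤ 2 - k + ((2 + x) * c - x * s) / 2 + x * k / 2 := by
    have a1 := H.k1
    have a2 := mul_nonneg H.x0 (by have := H.sc; linarith : 0 ≤ c - s)
    have a3 := mul_nonneg H.x0 H.k0.le
    have a4 := H.c0
    nlinarith
  have hq : y * k * (1 + x) ≤ k := by
    have := mul_le_mul_of_nonneg_right H.yx H.k0.le
    nlinarith
  have hmain := mul_le_mul_of_nonneg_right hq (mul_nonneg H.c0.le hN')
  have hN := mul_nonneg (mul_nonneg H.q0.le hX.le) (mul_nonneg hX.le h2)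
  -- final bracket
  have hb : 0 ≤ (c - k) * (2 - k) + x * (c - (1 + x) * s) + x * ((c - s) * (1 - k / 2) +
      (1 + x) * (c - k) + s - k ^ 2 / 2) := by
    have a1 : 0 ≤ (c - k) * (2 - k) :=
      mul_nonneg (by have := H.kc; linarith) (by have := H.k1; linarith)
    have a2 := mul_nonneg H.x0 H.D0
    have a3 : 0 ≤ (c - s) * (1 - k / 2) + (1 + x) * (c - k) + s - k ^ 2 / 2 := by
      have b1 : 0 ≤ (c - s) * (1 / 2 - k / 2) :=
        mul_nonneg (by have := H.sc; linarith) (by have := H.k1; linarith)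
      have b2 := mul_nonneg hX.le (by have := H.kc; linarith : 0 ≤ c - k)
      have b3 : k ^ 2 ≤ c := by
        have := H.kc
        have := H.k1
        have := H.k0
        nlinarith
      have b4 := H.s0
      nlinarith
    have a4 := mul_nonneg H.x0 a3
    linarith
  have hbc := mul_nonneg H.c0.le hb
  have e1 : (1 + x) * (1 * (-(y * k * c) +
      y * k / 2 * (1 + x + ((1 - x) * c - (1 + x) * s) * k)) +
      c * (-(y * k) + ((2 + x) * c - x * s - x * k) -
        y * k / 2 * ((2 + x) * c - x * s + x * k))) =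
      c * ((c - k) * (2 - k) + x * (c - (1 + x) * s) + x * ((c - s) * (1 - k / 2) +
      (1 + x) * (c - k) + s - k ^ 2 / 2)) +
      (k * (c * (2 - k + ((2 + x) * c - x * s) / 2 + x * k / 2)) -
        y * k * (1 + x) * (c * (2 - k + ((2 + x) * c - x * s) / 2 + x * k / 2))) +
      1 / 2 * (y * k * (1 + x) * ((1 + x) * (1 - k * (c + s)))) := by
    ring
  rw [e1]
  linarith

end coefs

/-- the coordinates `A / (4 D G)` recover the point -/
theorem low_inv (c s x DD GG u P M a1 a2 a3 : ℝ) (cs : c ^ 2 + s ^ 2 = 1)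
    (hD : DD = c - (1 + x) * s) (hG : GG = c + (1 - x) * s) (hD0 : 0 < DD) (hG0 : 0 < GG)
    (h1 : 4 * DD * GG * a1 = 4 * (c - x * s) * u - P + (c + s) * M)
    (h2 : 4 * DD * GG * a2 = 4 * c * u - (1 - x) * P - ((1 + x) * c + (1 - x) * s) * M)
    (h3 : 4 * DD * GG * a3 = -(4 * u) + ((2 - x) * c - x * s) * P + x * M) :
    u = (c - x * s) * a1 + c * a2 + a3 ∧
    P = 2 * (a1 + (1 + x) * a2 + ((2 + x) * c - x * s) * a3) ∧
    M = 2 * ((c - s) * a1 - ((1 - x) * c - (1 + x) * s) * a2 + x * a3) ∧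
    DD * u - (P - (c + s) * M) / 2 = GG * ((c - (2 + x) * s) * a1 - c * a2 - a3) := by
  have hne : (4 * DD * GG) ≠ 0 := by positivity
  have hne2 : (4 * DD) ≠ 0 := by positivity
  refine ⟨?_, ?_, ?_, ?_⟩
  · apply mul_left_cancel₀ hne
    subst hD hG
    linear_combination -(c - x * s) * h1 - c * h2 - h3 - (4 * u - x * M) * cs
  · apply mul_left_cancel₀ hne
    subst hD hG
    linear_combination -2 * h1 - 2 * (1 + x) * h2 - 2 * ((2 + x) * c - x * s) * h3 -
      ((4 - 2 * x ^ 2) * P) * cs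
  · apply mul_left_cancel₀ hne
    subst hD hG
    linear_combination -2 * (c - s) * h1 + 2 * ((1 - x) * c - (1 + x) * s) * h2 - 2 * x * h3 -
      (8 * x * u - 2 * x ^ 2 * M) * cs
  · apply mul_left_cancel₀ hne2
    subst hD hG
    linear_combination -(c - (2 + x) * s) * h1 + c * h2 + h3 + (4 * u - x * M) * cs

/-- the diagonal form -/
theorem low_quad (c s x DD GG u P M a1 a2 a3 v R N b1 b2 b3 : ℝ) (cs : c ^ 2 + s ^ 2 = 1)
    (hD : DD = c - (1 + x) * s) (hG : GG = c + (1 - x) * s) (hG0 : 0 < GG)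
    (h1 : 4 * DD * GG * a1 = 4 * (c - x * s) * u - P + (c + s) * M)
    (h2 : 4 * DD * GG * a2 = 4 * c * u - (1 - x) * P - ((1 + x) * c + (1 - x) * s) * M)
    (h3 : 4 * DD * GG * a3 = -(4 * u) + ((2 - x) * c - x * s) * P + x * M)
    (k1 : 4 * DD * GG * b1 = 4 * (c - x * s) * v - R + (c + s) * N)
    (k2 : 4 * DD * GG * b2 = 4 * c * v - (1 - x) * R - ((1 + x) * c + (1 - x) * s) * N)
    (k3 : 4 * DD * GG * b3 = -(4 * v) + ((2 - x) * c - x * s) * R + x * N) :
    -(DD * u * v) + (((1 - x) * c - s) * P * R + x * (P * N + M * R) -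
      ((1 + x) * c + s) * M * N) / 8 =
    -(GG * (DD ^ 2 * (a1 * b1 + a2 * b2 - a3 * b3))) := by
  have hne : (16 * GG) ≠ 0 := by positivity
  apply mul_left_cancel₀ hne
  have e1 : 16 * GG * -(GG * (DD ^ 2 * (a1 * b1 + a2 * b2 - a3 * b3))) =
      -((4 * DD * GG * a1) * (4 * DD * GG * b1) + (4 * DD * GG * a2) * (4 * DD * GG * b2) -
        (4 * DD * GG * a3) * (4 * DD * GG * b3)) := by ring
  rw [e1, h1, h2, h3, k1, k2, k3]
  subst hD hG
  linear_combination (16 * u * v - 4 * x * (u * N + v * M) - (2 - 2 * x + x ^ 2) * P * R +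
    x ^ 2 * M * N) * cs

theorem form_symm (e h t : ℝ) (p r : Fin 3 → ℝ) : form e h t p r = form e h t r p := by
  unfold form
  ring

theorem form_add (e h t : ℝ) (p p' r : Fin 3 → ℝ) :
    form e h t (p + p') r = form e h t p r + form e h t p' r := by
  unfold form X
  simp only [Pi.add_apply]
  ring

/-- the hypotheses hold for the real data -/
theorem lowHyp (e h : ℝ) (h0 : 0 ≤ h) (h1 : h ≤ e) (h2 : e < π / 4) :
    LowHyp (cos h) (sin h) (e - h) (exp (-h)) (exp (-(e - h))) h := by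
  have hh : h ≤ π / 4 := by linarith
  have hx : 0 ≤ e - h := by linarith
  have hpi := one_le_pi4
  have hpos := pi_pos
  have hc : 0 < cos h := cos_pos_of_mem_Ioo ⟨by linarith, by linarith⟩
  have hs : 0 ≤ sin h := sin_nonneg_of_nonneg_of_le_pi h0 (by linarith)
  exact {
    c0 := hc
    c1 := cos_le_one h
    s0 := hs
    sc := sin_le_cos h h0 hh
    cs := cos_sq_add_sin_sq h
    x0 := hx
    k0 := exp_pos _
    k1 := exp_le_one_iff.2 (by linarith)
    kc := exp_le_cos h h0 hh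
    kap := exp_mul_cos_add_sin h h0 hh
    b7 := one_sub_exp_mul_cos h h0 hh
    y0 := exp_pos _
    y1 := exp_le_one_iff.2 (by linarith)
    y2 := exp_neg_mul_two_add _ hx
    yx := exp_neg_mul_one_add _ hx
    D0 := by
      have := D_pos e h h0 h1 h2
      unfold D at this
      exact this.le
    h0 := h0
    b6 := cos_sub_exp h h0 hh
    sh := sin_le h0
    hx := by linarith }

theorem low_min (q a b F : ℝ) (hq0 : 0 ≤ q) (hq1 : q ≤ 1) (h : q * a + (1 - q) * b ≤ F) :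
    min a b ≤ F := by
  have h1 := min_le_left a b
  have h2 := min_le_right a b
  have h3 := mul_le_mul_of_nonneg_left h1 hq0
  have h4 := mul_le_mul_of_nonneg_left h2 (by linarith : 0 ≤ 1 - q)
  nlinarith

theorem form_ge (e h t : ℝ) (p r : Fin 3 → ℝ) (h0 : 0 ≤ h) (h1 : h ≤ e) (h2 : e < π / 4)
    (ht : 0 < t) (a1 : 0 ≤ A1 e h t p) (a2 : 0 ≤ A2 e h t p) (a3 : 0 ≤ A3 e h t p)
    (b1 : 0 ≤ A1 e h t r) (b2 : 0 ≤ A2 e h t r) (b3 : 0 ≤ A3 e h t r) :
    min (p 0 * r 2) (p 2 * r 1) ≤ form e h t p r := by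
  have H := lowHyp e h h0 h1 h2
  have hD0 : 0 < D e h := D_pos e h h0 h1 h2
  have hG0 : 0 < G e h := G_pos e h h0 h1 h2.le
  have hq : exp (-e) = exp (-(e - h)) * exp (-h) := by
    rw [← exp_add]
    congr 1
    ring
  have hkE : exp (-h) * exp h = 1 := by
    rw [← exp_add]
    simp
  have hne : (4 * D e h * G e h) ≠ 0 := by positivity
  have hpos : (0 : ℝ) < 4 * D e h * G e h := by positivity
  -- coordinates
  obtain ⟨i1, hi1⟩ : ∃ z, z = A1 e h t p / (4 * D e h * G e h) := ⟨_, rfl⟩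
  obtain ⟨i2, hi2⟩ : ∃ z, z = A2 e h t p / (4 * D e h * G e h) := ⟨_, rfl⟩
  obtain ⟨i3, hi3⟩ : ∃ z, z = A3 e h t p / (4 * D e h * G e h) := ⟨_, rfl⟩
  obtain ⟨j1, hj1⟩ : ∃ z, z = A1 e h t r / (4 * D e h * G e h) := ⟨_, rfl⟩
  obtain ⟨j2, hj2⟩ : ∃ z, z = A2 e h t r / (4 * D e h * G e h) := ⟨_, rfl⟩
  obtain ⟨j3, hj3⟩ : ∃ z, z = A3 e h t r / (4 * D e h * G e h) := ⟨_, rfl⟩
  have pi1 : 0 ≤ i1 := by rw [hi1]; exact div_nonneg a1 hpos.le
  have pi2 : 0 ≤ i2 := by rw [hi2]; exact div_nonneg a2 hpos.le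
  have pi3 : 0 ≤ i3 := by rw [hi3]; exact div_nonneg a3 hpos.le
  have pj1 : 0 ≤ j1 := by rw [hj1]; exact div_nonneg b1 hpos.le
  have pj2 : 0 ≤ j2 := by rw [hj2]; exact div_nonneg b2 hpos.le
  have pj3 : 0 ≤ j3 := by rw [hj3]; exact div_nonneg b3 hpos.le
  rw [eq_div_iff hne, mul_comm] at hi1 hi2 hi3 hj1 hj2 hj3
  obtain ⟨u, hu⟩ : ∃ z, z = t * p 2 := ⟨_, rfl⟩
  obtain ⟨v, hv⟩ : ∃ z, z = t * r 2 := ⟨_, rfl⟩
  obtain ⟨P, hP⟩ : ∃ z, z = p 0 + p 1 := ⟨_, rfl⟩
  obtain ⟨R, hR⟩ : ∃ z, z = r 0 + r 1 := ⟨_, rfl⟩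
  obtain ⟨M, hM⟩ : ∃ z, z = exp h * (p 0 - p 1) := ⟨_, rfl⟩
  obtain ⟨N, hN⟩ : ∃ z, z = exp h * (r 0 - r 1) := ⟨_, rfl⟩
  have kM : exp (-h) * M = p 0 - p 1 := by rw [hM, ← mul_assoc, hkE, one_mul]
  have kN : exp (-h) * N = r 0 - r 1 := by rw [hN, ← mul_assoc, hkE, one_mul]
  have p1 : 4 * D e h * G e h * i1 = 4 * (cos h - (e - h) * sin h) * u - P +
      (cos h + sin h) * M := by
    rw [hi1, hu, hP, hM]; unfold A1; ring
  have p2 : 4 * D e h * G e h * i2 = 4 * cos h * u - (1 - (e - h)) * P -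
      ((1 + (e - h)) * cos h + (1 - (e - h)) * sin h) * M := by
    rw [hi2, hu, hP, hM]; unfold A2; ring
  have p3 : 4 * D e h * G e h * i3 = -(4 * u) + ((2 - (e - h)) * cos h - (e - h) * sin h) * P +
      (e - h) * M := by
    rw [hi3, hu, hP, hM]; unfold A3; ring
  have r1 : 4 * D e h * G e h * j1 = 4 * (cos h - (e - h) * sin h) * v - R +
      (cos h + sin h) * N := by
    rw [hj1, hv, hR, hN]; unfold A1; ring
  have r2 : 4 * D e h * G e h * j2 = 4 * cos h * v - (1 - (e - h)) * R -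
      ((1 + (e - h)) * cos h + (1 - (e - h)) * sin h) * N := by
    rw [hj2, hv, hR, hN]; unfold A2; ring
  have r3 : 4 * D e h * G e h * j3 = -(4 * v) + ((2 - (e - h)) * cos h - (e - h) * sin h) * R +
      (e - h) * N := by
    rw [hj3, hv, hR, hN]; unfold A3; ring
  have hDe : D e h = cos h - (1 + (e - h)) * sin h := rfl
  have hGe : G e h = cos h + (1 - (e - h)) * sin h := rfl
  obtain ⟨x, hx⟩ : ∃ z, z = e - h := ⟨_, rfl⟩
  obtain ⟨c, hc⟩ : ∃ z, z = cos h := ⟨_, rfl⟩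
  obtain ⟨s, hs⟩ : ∃ z, z = sin h := ⟨_, rfl⟩
  obtain ⟨k, hk⟩ : ∃ z, z = exp (-h) := ⟨_, rfl⟩
  obtain ⟨y, hy⟩ : ∃ z, z = exp (-(e - h)) := ⟨_, rfl⟩
  obtain ⟨DD, hDD⟩ : ∃ z, z = D e h := ⟨_, rfl⟩
  obtain ⟨GG, hGG⟩ : ∃ z, z = G e h := ⟨_, rfl⟩
  have hform : t * form e h t p r = p 1 * v + u * r 1 + v * (y * k / GG * (DD * u -
      (P - (c + s) * M) / 2)) + u * (y * k / GG * (DD * v - (R - (c + s) * N) / 2)) +
      y * k / GG * (-(DD * u * v) + (((1 - x) * c - s) * P * R + x * (P * N + M * R) -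
      ((1 + x) * c + s) * M * N) / 8) := by
    unfold form X
    rw [hq, ← hy, ← hk, ← hDD, ← hGG, ← hc, ← hs, ← hx, hP, hR, hM, hN, hu, hv]
    have : GG ≠ 0 := by rw [hGG]; positivity
    field_simp
    ring
  rw [← hDD] at hDe hD0 p1 p2 p3 r1 r2 r3
  rw [← hGG] at hGe hG0 p1 p2 p3 r1 r2 r3
  rw [← hy, ← hx, ← hc, ← hs, ← hk] at H
  rw [← hx, ← hc, ← hs] at hDe hGe
  rw [← hx] at p1 p2 p3 r1 r2 r3
  rw [← hc] at p1 p2 p3 r1 r2 r3
  rw [← hs] at p1 p2 r1 r2 p3 r3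
  rw [← hk] at kM kN
  obtain ⟨iu, iP, iM, iL⟩ := low_inv c s x DD GG u P M i1 i2 i3 H.cs hDe hGe hD0 hG0 p1 p2 p3
  obtain ⟨ju, jP, jM, jL⟩ := low_inv c s x DD GG v R N j1 j2 j3 H.cs hDe hGe hD0 hG0 r1 r2 r3
  have hquad := low_quad c s x DD GG u P M i1 i2 i3 v R N j1 j2 j3 H.cs hDe hGe hG0
    p1 p2 p3 r1 r2 r3
  have hGne : GG ≠ 0 := hG0.ne'
  rw [iL, jL, hquad] at hform
  have hsimp : t * form e h t p r = p 1 * v + u * r 1 +
      v * (y * k * ((c - (2 + x) * s) * i1 - c * i2 - i3)) +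
      u * (y * k * ((c - (2 + x) * s) * j1 - c * j2 - j3)) -
      y * k * (DD ^ 2 * (i1 * j1 + i2 * j2 - i3 * j3)) := by
    rw [hform]
    field_simp
    ring
  have q1 : p 1 = (1 - (c - s) * k) * i1 + (1 + x + ((1 - x) * c - (1 + x) * s) * k) * i2 +
      ((2 + x) * c - x * s - x * k) * i3 := by
    linear_combination (1 / 2) * iP - (1 / 2) * hP + (1 / 2) * kM - (k / 2) * iM
  have q0 : p 0 = (1 + (c - s) * k) * i1 + (1 + x - ((1 - x) * c - (1 + x) * s) * k) * i2 +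
      ((2 + x) * c - x * s + x * k) * i3 := by
    linear_combination (1 / 2) * iP - (1 / 2) * hP - (1 / 2) * kM + (k / 2) * iM
  have s1 : r 1 = (1 - (c - s) * k) * j1 + (1 + x + ((1 - x) * c - (1 + x) * s) * k) * j2 +
      ((2 + x) * c - x * s - x * k) * j3 := by
    linear_combination (1 / 2) * jP - (1 / 2) * hR + (1 / 2) * kN - (k / 2) * jM
  have t11 := mul_nonneg (mul_nonneg pi1 pj1) H.T11
  have t12 := mul_nonneg (mul_nonneg pi1 pj2) H.T12
  have t13 := mul_nonneg (mul_nonneg pi1 pj3) H.T13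
  have t21 := mul_nonneg (mul_nonneg pi2 pj1) H.T21
  have t22 := mul_nonneg (mul_nonneg pi2 pj2) H.T22
  have t23 := mul_nonneg (mul_nonneg pi2 pj3) H.T23
  have t31 := mul_nonneg (mul_nonneg pi3 pj1) H.T31
  have t32 := mul_nonneg (mul_nonneg pi3 pj2) H.T32
  have t33 := mul_nonneg (mul_nonneg pi3 pj3) H.T33
  have hmain : t * (y * k / 2 * (p 0 * r 2) + (1 - y * k / 2) * (p 2 * r 1)) ≤
      t * form e h t p r := by
    have e1 : t * (y * k / 2 * (p 0 * r 2) + (1 - y * k / 2) * (p 2 * r 1)) =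
        y * k / 2 * p 0 * v + (1 - y * k / 2) * u * r 1 := by
      rw [hu, hv]; ring
    rw [e1, hsimp, q1, q0, s1, iu, ju, hDe]
    linarith
  exact low_min (y * k / 2) _ _ _ (by have := H.q0; linarith) (by have := H.q1; linarith)
    (le_of_mul_le_mul_left hmain ht)

theorem low_H_aux (q e t p0 p1 p2 r0 r1 r2 : ℝ) (hq0 : 0 ≤ q) (hq1 : e * q ≤ 1 - q)
    (he : 0 ≤ e) (ht : 0 < t) (hp0 : 0 ≤ p0) (hp1 : 0 ≤ p1) (hp2 : 0 ≤ p2)
    (hr0 : 0 ≤ r0) (hr1 : 0 ≤ r1) (hr2 : 0 ≤ r2) (hv : r1 ≤ 2 * t * r2) :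
    min (p0 * r2) (p2 * r1) ≤ (1 - q) * (p1 * r2 + p2 * r1) + q * (t * p2 * r2 +
      (p0 * r1 + p1 * r0 - 2 * e * (p1 * r1)) / (4 * t)) := by
  have hq2 : q ≤ 1 := by nlinarith [mul_nonneg he hq0]
  obtain ⟨F, hF⟩ : ∃ z, z = (1 - q) * (p1 * r2 + p2 * r1) + q * (t * p2 * r2 +
      (p0 * r1 + p1 * r0 - 2 * e * (p1 * r1)) / (4 * t)) := ⟨_, rfl⟩
  rw [← hF]
  -- multiply by 4 t
  have hF4 : 4 * t * F = 4 * t * ((1 - q) * (p1 * r2 + p2 * r1)) + q * (4 * t ^ 2 * p2 * r2 +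
      (p0 * r1 + p1 * r0 - 2 * e * (p1 * r1))) := by
    rw [hF]
    field_simp
  -- the p1 part
  have hp1part : 0 ≤ p1 * (4 * t * (1 - q) * r2 - 2 * q * e * r1) := by
    apply mul_nonneg hp1
    have a1 : 2 * q * e * r1 ≤ 2 * q * e * (2 * t * r2) :=
      mul_le_mul_of_nonneg_left hv (by positivity)
    have a2 : 4 * (e * q) * (t * r2) ≤ 4 * (1 - q) * (t * r2) := by
      have := mul_le_mul_of_nonneg_right hq1 (mul_nonneg ht.le hr2)
      linarith
    nlinarith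
  have hpr : 0 ≤ q * (p1 * r0) := by positivity
  rcases hr2.eq_or_lt with h | h
  · have h1 : r1 = 0 := by
      rw [← h] at hv
      linarith
    have h2 : min (p0 * r2) (p2 * r1) = 0 := by
      rw [← h, h1]
      simp
    rw [h2]
    have h3 : 0 ≤ 4 * t * F := by
      rw [hF4, h1, ← h]
      nlinarith
    nlinarith
  · rcases le_total (p2 * r1) (p0 * r2) with hc | hc
    · rw [min_eq_right hc]
      have h4t : 0 < 4 * t * r2 := by positivity
      refine le_of_mul_le_mul_left ?_ h4t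
      have e1 : 4 * t * r2 * F = r2 * (4 * t * F) := by ring
      rw [e1, hF4]
      have hk : q * r1 * (p2 * r1) ≤ q * r1 * (p0 * r2) :=
        mul_le_mul_of_nonneg_left hc (by positivity)
      have hsq : 0 ≤ q * p2 * (2 * t * r2 - r1) ^ 2 := by positivity
      have a1 := mul_nonneg h.le hp1part
      have a2 := mul_nonneg h.le hpr
      nlinarith
    · rw [min_eq_left hc]
      have h4t : 0 < 4 * t * r2 := by positivity
      refine le_of_mul_le_mul_left ?_ h4t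
      have e1 : 4 * t * r2 * F = r2 * (4 * t * F) := by ring
      rw [e1, hF4]
      have hd : 0 ≤ 4 * t * r2 - q * r1 := by
        have a1 : q * r1 ≤ 1 * r1 := mul_le_mul_of_nonneg_right hq2 hr1
        nlinarith [mul_nonneg ht.le hr2]
      have hk : (4 * t * r2 - q * r1) * (p0 * r2) ≤ (4 * t * r2 - q * r1) * (p2 * r1) :=
        mul_le_mul_of_nonneg_left hc hd
      have hsq : 0 ≤ q * p2 * (2 * t * r2 - r1) ^ 2 := by positivity
      have a1 := mul_nonneg h.le hp1part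
      have a2 := mul_nonneg h.le hpr
      nlinarith

theorem form_H_eq (e t : ℝ) (p r : Fin 3 → ℝ) (ht : 0 < t) :
    form e 0 t p r = (1 - exp (-e)) * (p 1 * r 2 + p 2 * r 1) + exp (-e) * (t * p 2 * r 2 +
      (p 0 * r 1 + p 1 * r 0 - 2 * e * (p 1 * r 1)) / (4 * t)) := by
  unfold form X G D
  simp only [cos_zero, sin_zero, exp_zero]
  field_simp
  ring

theorem form_ge_H (e t : ℝ) (p r : Fin 3 → ℝ) (h1 : 0 ≤ e)
    (ht : 0 < t) (hp : ∀ i, 0 ≤ p i) (hr : ∀ i, 0 ≤ r i)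
    (hv : e = 0 ∨ (0 ≤ A1 e 0 t p ∧ 0 ≤ A1 e 0 t r)) :
    min (p 0 * r 2) (p 2 * r 1) ≤ form e 0 t p r := by
  rw [form_H_eq e t p r ht]
  rcases hv with he | ⟨-, hv⟩
  · subst he
    simp only [neg_zero, exp_zero, sub_self, zero_mul, zero_add, one_mul, mul_zero, sub_zero]
    obtain ⟨A, hA⟩ : ∃ z, z = t * p 2 * r 2 := ⟨_, rfl⟩
    obtain ⟨B, hB⟩ : ∃ z, z = p 0 * r 1 / (4 * t) := ⟨_, rfl⟩
    have hA0 : 0 ≤ A := by rw [hA]; exact mul_nonneg (mul_nonneg ht.le (hp 2)) (hr 2)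
    have hB0 : 0 ≤ B := by
      rw [hB]; exact div_nonneg (mul_nonneg (hp 0) (hr 1)) (by positivity)
    have hAB : 4 * (A * B) = (p 0 * r 2) * (p 2 * r 1) := by
      rw [hA, hB]
      field_simp
    have hC0 : 0 ≤ p 1 * r 0 / (4 * t) :=
      div_nonneg (mul_nonneg (hp 1) (hr 0)) (by positivity)
    have hge : A + B ≤ t * p 2 * r 2 + (p 0 * r 1 + p 1 * r 0) / (4 * t) := by
      rw [add_div, ← hA, ← hB]
      linarith
    refine le_trans ?_ hge
    by_contra hcon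
    push Not at hcon
    obtain ⟨m, hm⟩ : ∃ z, z = min (p 0 * r 2) (p 2 * r 1) := ⟨_, rfl⟩
    rw [← hm] at hcon
    have m1 : m ≤ p 0 * r 2 := by rw [hm]; exact min_le_left _ _
    have m2 : m ≤ p 2 * r 1 := by rw [hm]; exact min_le_right _ _
    have m0 : 0 < m := by linarith
    have m3 : m * m ≤ (p 0 * r 2) * (p 2 * r 1) :=
      mul_le_mul m1 m2 m0.le (mul_nonneg (hp 0) (hr 2))
    have m4 : (A + B) * (A + B) < m * m := by nlinarith
    nlinarith [sq_nonneg (A - B)]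
  · have hq1 : e * exp (-e) ≤ 1 - exp (-e) := by
      have := exp_neg_mul_one_add e h1
      linarith
    refine low_H_aux (exp (-e)) e t (p 0) (p 1) (p 2) (r 0) (r 1) (r 2) (exp_pos _).le hq1 h1 ht
      (hp 0) (hp 1) (hp 2) (hr 0) (hr 1) (hr 2) ?_
    unfold A1 at hv
    simp only [cos_zero, sin_zero, exp_zero] at hv
    linarith

theorem low (E : ℝ) (hE0 : 0 < E) (hE : E < π / 4) (p r : Fin 3 → ℝ)
    (hp : ∀ i, 0 ≤ p i) (hr : ∀ i, 0 ≤ r i) (e h t : ℝ) (v1 : Val E e h t p)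
    (v2 : Val E e h t r) :
    min (p 0 * r 2) (p 2 * r 1) ≤ form e h t p r := by
  obtain ⟨h0, h1, h2, ht, c1⟩ := v1
  obtain ⟨-, -, -, -, c2⟩ := v2
  by_cases hh : h = 0
  · subst hh
    refine form_ge_H e t p r h1 ht hp hr ?_
    rcases c1 with c1 | c1 | c1
    · exact Or.inl c1.2
    · rcases c2 with c2 | c2 | c2
      · exact Or.inl c2.2
      · exact Or.inr ⟨c1.2, c2.2⟩
      · exact Or.inr ⟨c1.2, c2.1⟩
    · rcases c2 with c2 | c2 | c2
      · exact Or.inl c2.2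
      · exact Or.inr ⟨c1.1, c2.2⟩
      · exact Or.inr ⟨c1.1, c2.1⟩
  · rcases c1 with c1 | c1 | c1
    · exact absurd c1.1 hh
    · exact absurd c1.1 hh
    · rcases c2 with c2 | c2 | c2
      · exact absurd c2.1 hh
      · exact absurd c2.1 hh
      · exact form_ge e h t p r h0 h1 (lt_of_le_of_lt h2 hE) ht c1.1 c1.2.1 c1.2.2
          c2.1 c2.2.1 c2.2.2

end Pool.Agent.Helper92.S2
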