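import Mathlib
import Pool.Agent.Helper92.S2.Exchange
import Pool.Agent.Helper92.S2.Low
import Pool.Agent.Helper92.S2.Glue

/-!
# The upper bound of the two player cryptogenography value
-/

namespace Pool.Agent.Helper92.S2

open Real Pool.Agent.Helper92.Crypto

/-- the upper bound of the value of the two player cryptogenography game -/
theorem cryptoValue_two_upper : cryptoValue 2 ≤ 1 / 2 - exp (-(π / 4)) / (2 * √2) := by
  refine cryptoValue_two_le fun E hE0 hE => ?_
  refine cryptoValue_two_le_form E hE0 hE ?_ ?_
  · intro p r hp hr e h t hv
    exact exchange E hE p r hp hr e h t hv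
  · intro p r hp hr e h t v1 v2
    exact low E hE0 hE p r hp hr e h t v1 v2

end Pool.Agent.Helper92.S2
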